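import Pool.Agent.P.MP_70ee84_co.Geo

set_option autoImplicit false

section

/-! Counting corners of pieces. -/

open Complex Real Finset
open scoped Classical

namespace Pool.Agent.P.MP_70ee84_co

variable {A : Fin 3 → ℝ} {t : Fin 3 → ℂ} {s : Fin 5 → Fin 3 → ℂ}

/-- The pieces with a corner at `p`. -/
noncomputable def pcs (s : Fin 5 → Fin 3 → ℂ) (p : ℂ) : Finset (Fin 5) :=
  univ.filter fun m => ∃ i, s m i = p

theorem mem_pcs {p : ℂ} {m : Fin 5} : m ∈ pcs s p ↔ ∃ i, s m i = p := by simp [pcs]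

theorem Part.idx (h : Part t s) {m : Fin 5} {i i' : Fin 3} (e : s m i = s m i') : i = i' :=
  inj_of (h.ps m).ne' e

theorem Part.card_pcs (h : Part t s) (p : ℂ) : (pcs s p).card = (inc s p).card := by
  refine (card_bij (fun x _ => x.1) (fun x hx => mem_pcs.2 ⟨x.2, mem_inc.1 hx⟩)
    (fun x hx y hy e => ?_) fun m hm => ?_).symm
  · obtain ⟨m, i⟩ := x
    obtain ⟨m', i'⟩ := y
    obtain rfl : m = m' := e
    exact Prod.ext rfl (h.idx ((mem_inc.1 hx).trans (mem_inc.1 hy).symm))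
  · obtain ⟨i, hi⟩ := mem_pcs.1 hm
    exact ⟨(m, i), mem_inc.2 hi, rfl⟩

theorem de_of {p q : ℂ} (hpq : p ≠ q) {m : Fin 5} (hm : m ∈ pcs s p ∩ pcs s q) :
    De s m p q ∨ De s m q p := by
  obtain ⟨i, hi⟩ := mem_pcs.1 (mem_inter.1 hm).1
  obtain ⟨i', hi'⟩ := mem_pcs.1 (mem_inter.1 hm).2
  exact de_or hpq hi hi'

theorem Part.two (h : Part t s) {p q : ℂ} (hpq : p ≠ q) : (pcs s p ∩ pcs s q).card ≤ 2 := by
  by_contra hc
  obtain ⟨a, b, c, ha, hb, hc, h1, h2, h3⟩ := two_lt_card_iff.1 (not_le.1 hc)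
  rcases de_of hpq ha with a' | a' <;> rcases de_of hpq hb with b' | b' <;>
    rcases de_of hpq hc with c' | c' <;>
    first | exact h1 (h.de_uniq a' b') | exact h2 (h.de_uniq a' c') | exact h3 (h.de_uniq b' c')

theorem Part.one_bd (h : Part t s) {p q : ℂ} (hpq : p ≠ q) {k : Fin 3} (hp : lam t k p = 0)
    (hq : lam t k q = 0) : (pcs s p ∩ pcs s q).card ≤ 1 := by
  refine card_le_one.2 fun a ha b hb => ?_
  rcases de_of hpq ha with a' | a' <;> rcases de_of hpq hb with b' | b'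
  · exact h.de_uniq a' b'
  · exact (h.de_bd hp hq a' b').elim
  · exact (h.de_bd hp hq b' a').elim
  · exact h.de_uniq a' b'

theorem card_miss {S : Finset (Fin 5)} {a : Fin 5} (h : a ∉ S) : S.card ≤ 4 := by
  have := card_le_card (show S ⊆ univ.erase a from fun x hx =>
    mem_erase.2 ⟨fun e => h (e ▸ hx), mem_univ x⟩)
  simpa using this

theorem inter_two {S T : Finset (Fin 5)} {a : Fin 5} (h1 : a ∉ S) (h2 : a ∉ T) (h3 : 3 ≤ S.card)
    (h4 : 3 ≤ T.card) : 2 ≤ (S ∩ T).card := by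
  have h5 := card_miss (S := S ∪ T) (a := a) (by simp [h1, h2])
  have h6 := card_union_add_card_inter S T
  omega

/-- The three angles in one of the six orders. -/
def Ord (A : Fin 3 → ℝ) (a l r : ℝ) : Prop :=
  (a = A 0 ∧ (l = A 1 ∧ r = A 2 ∨ l = A 2 ∧ r = A 1)) ∨
  (a = A 1 ∧ (l = A 0 ∧ r = A 2 ∨ l = A 2 ∧ r = A 0)) ∨
  (a = A 2 ∧ (l = A 0 ∧ r = A 1 ∨ l = A 1 ∧ r = A 0))

theorem ord_of {v : Fin 3 → ℂ} (h : ∃ σ : Equiv.Perm (Fin 3), ∀ j, an v j = A (σ j)) (i : Fin 3) :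
    Ord A (an v i) (an v (i + 1)) (an v (i + 2)) := by
  obtain ⟨σ, hσ⟩ := h
  have key : ∀ (σ : Equiv.Perm (Fin 3)) (i : Fin 3),
      (σ i = 0 ∧ (σ (i + 1) = 1 ∧ σ (i + 2) = 2 ∨ σ (i + 1) = 2 ∧ σ (i + 2) = 1)) ∨
      (σ i = 1 ∧ (σ (i + 1) = 0 ∧ σ (i + 2) = 2 ∨ σ (i + 1) = 2 ∧ σ (i + 2) = 0)) ∨
      (σ i = 2 ∧ (σ (i + 1) = 0 ∧ σ (i + 2) = 1 ∨ σ (i + 1) = 1 ∧ σ (i + 2) = 0)) := by decide
  rw [hσ, hσ, hσ, Ord]
  rcases key σ i with ⟨a, ⟨b, c⟩ | ⟨b, c⟩⟩ | ⟨a, ⟨b, c⟩ | ⟨b, c⟩⟩ | ⟨a, ⟨b, c⟩ | ⟨b, c⟩⟩ <;>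
    rw [a, b, c] <;> tauto

/-- A dissection into five triangles with the angles `A`. -/
structure Dis (A : Fin 3 → ℝ) (t : Fin 3 → ℂ) (s : Fin 5 → Fin 3 → ℂ) : Prop extends Part t s where
  m01 : A 0 ≤ A 1
  m12 : A 1 ≤ A 2
  nr : ∀ j, A j ≠ π / 2
  ot : ∀ i, Ord A (an t i) (an t (i + 1)) (an t (i + 2))
  os : ∀ m i, Ord A (an (s m) i) (an (s m) (i + 1)) (an (s m) (i + 2))

theorem Dis.sum (h : Dis A t s) : A 0 + A 1 + A 2 = π := by
  have := an_sum h.pt 0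
  rcases h.ot 0 with ⟨a, ⟨b, c⟩ | ⟨b, c⟩⟩ | ⟨a, ⟨b, c⟩ | ⟨b, c⟩⟩ | ⟨a, ⟨b, c⟩ | ⟨b, c⟩⟩ <;> linarith

theorem Dis.pos (h : Dis A t s) : 0 < A 0 := by
  have h0 := an_pos h.pt 0
  have h1 := an_pos h.pt (0 + 1)
  have h2 := an_pos h.pt (0 + 2)
  rcases h.ot 0 with ⟨a, ⟨b, c⟩ | ⟨b, c⟩⟩ | ⟨a, ⟨b, c⟩ | ⟨b, c⟩⟩ | ⟨a, ⟨b, c⟩ | ⟨b, c⟩⟩ <;> linarith

theorem Dis.val (h : Dis A t s) (m : Fin 5) (i : Fin 3) :
    an (s m) i = A 0 ∨ an (s m) i = A 1 ∨ an (s m) i = A 2 :=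
  (h.os m i).imp And.left (Or.imp And.left And.left)

theorem Dis.ge (h : Dis A t s) (m : Fin 5) (i : Fin 3) : A 0 ≤ an (s m) i := by
  have h1 := h.m01
  have h2 := h.m12
  rcases h.val m i with e | e | e <;> linarith

theorem Dis.deg3 (h : Dis A t s) {p : ℂ} (hp : asum s p = π ∨ asum s p = 2 * π) :
    3 ≤ (pcs s p).card := by
  rw [h.card_pcs]
  by_contra hc
  have h0 := h.pos
  have h1 := h.m01
  have h2 := h.m12
  have h3 := h.sum
  unfold asum at hp
  rcases (show (inc s p).card = 0 ∨ (inc s p).card = 1 ∨ (inc s p).card = 2 by omega) with e | e | e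
  · rw [card_eq_zero.1 e, sum_empty] at hp
    rcases hp with hp | hp <;> linarith
  · obtain ⟨x, hx⟩ := card_eq_one.1 e
    rw [hx, sum_singleton] at hp
    have := an_lt (h.ps x.1) x.2
    rcases hp with hp | hp <;> linarith
  · obtain ⟨x, y, hxy, hx⟩ := card_eq_two.1 e
    rw [hx, sum_pair hxy] at hp
    have a1 := an_lt (h.ps x.1) x.2
    have a2 := an_lt (h.ps y.1) y.2
    rcases hp with hp | hp
    · rcases h.val x.1 x.2 with e1 | e1 | e1 <;> rcases h.val y.1 y.2 with e2 | e2 | e2 <;>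
        first | linarith | exact h.nr 2 (by linarith)
    · linarith

/-- The vertices of pieces that are not corners of `t`. -/
noncomputable def Nn (t : Fin 3 → ℂ) (s : Fin 5 → Fin 3 → ℂ) : Finset ℂ :=
  (univ.image fun x : Fin 5 × Fin 3 => s x.1 x.2) \ univ.image t

theorem mem_Nn {p : ℂ} : p ∈ Nn t s ↔ (∃ m i, s m i = p) ∧ ∀ j, t j ≠ p := by simp [Nn]

theorem Part.corner_pos (h : Part t s) (j : Fin 3) : 1 ≤ (inc s (t j)).card := by
  obtain ⟨m, i, e, -⟩ := h.corner1 j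
  exact card_pos.2 ⟨(m, i), mem_inc.2 e⟩

theorem Part.fib (h : Part t s) (f : Fin 5 × Fin 3 → ℝ) :
    ∑ x, f x = ∑ j, ∑ x ∈ inc s (t j), f x + ∑ p ∈ Nn t s, ∑ x ∈ inc s p, f x := by
  have hsub : univ.image t ⊆ univ.image fun x : Fin 5 × Fin 3 => s x.1 x.2 := by
    intro p hp
    obtain ⟨j, -, rfl⟩ := mem_image.1 hp
    obtain ⟨m, i, e, -⟩ := h.corner1 j
    exact mem_image.2 ⟨(m, i), mem_univ _, e⟩
  rw [← sum_fiberwise_of_maps_to (s := univ) (g := fun x : Fin 5 × Fin 3 => s x.1 x.2)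
    (fun x hx => mem_image_of_mem _ hx) f, ← sum_sdiff hsub, add_comm,
    sum_image fun a _ b _ e => inj_of h.pt.ne' e]
  rfl

theorem Part.kind (h : Part t s) {p : ℂ} (hp : p ∈ Nn t s) :
    (Edge t p ∧ asum s p = π ∧ nx s p = 0) ∨ (Inn t p ∧ asum s p = 2 * π ∧ nx s p = 0) ∨
      (Inn t p ∧ asum s p = π ∧ nx s p = 1) := by
  obtain ⟨⟨m, i, rfl⟩, hn⟩ := mem_Nn.1 hp
  rcases cases4 h.pt (s m i) with h1 | h1 | h1 | ⟨j, hj⟩
  · exact absurd h1 (h.not_out m i)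
  · exact Or.inr ((h.inner h1).imp (fun a => ⟨h1, a⟩) fun a => ⟨h1, a⟩)
  · exact Or.inl ⟨h1, h.bdry h1⟩
  · exact absurd hj (hn j)

/-- The flat vertices. -/
noncomputable def HH (t : Fin 3 → ℂ) (s : Fin 5 → Fin 3 → ℂ) : Finset ℂ :=
  (Nn t s).filter fun p => asum s p = π

/-- The full vertices. -/
noncomputable def FF (t : Fin 3 → ℂ) (s : Fin 5 → Fin 3 → ℂ) : Finset ℂ :=
  (Nn t s).filter fun p => ¬ asum s p = π

theorem Part.full (h : Part t s) {p : ℂ} (hp : p ∈ FF t s) :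
    Inn t p ∧ asum s p = 2 * π ∧ nx s p = 0 := by
  obtain ⟨h1, h2⟩ := mem_filter.1 hp
  rcases h.kind h1 with h3 | h3 | h3
  · exact absurd h3.2.1 h2
  · exact h3
  · exact absurd h3.2.1 h2

theorem Part.euler (h : Part t s) : (HH t s).card + 2 * (FF t s).card = 4 := by
  have h1 := h.fib fun x => an (s x.1) x.2
  have h2 : ∑ x : Fin 5 × Fin 3, an (s x.1) x.2 = 5 * π := by
    rw [Fintype.sum_prod_type, sum_congr rfl fun m _ => (show ∑ i, an (s m) i = π by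
      rw [Fin.sum_univ_three]; exact an_sum (h.ps m) 0)]
    simp
  have h3 : ∑ j, ∑ x ∈ inc s (t j), an (s x.1) x.2 = π := by
    refine (sum_congr rfl fun j _ => (h.corner j).1).trans ?_
    rw [Fin.sum_univ_three]
    exact an_sum h.pt 0
  have h4 : ∑ p ∈ HH t s, asum s p = (HH t s).card * π := by
    rw [sum_congr rfl fun p (hp : p ∈ HH t s) => show asum s p = π from (mem_filter.1 hp).2,
      sum_const, nsmul_eq_mul]
  have h5 : ∑ p ∈ FF t s, asum s p = (FF t s).card * (2 * π) := by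
    rw [sum_congr rfl fun p hp => (h.full hp).2.1, sum_const, nsmul_eq_mul]
  have h6 := sum_filter_add_sum_filter_not (Nn t s) (fun p => asum s p = π) (asum s)
  have h7 : (((HH t s).card + 2 * (FF t s).card : ℕ) : ℝ) * π = (4 : ℕ) * π := by
    push_cast
    change ∑ p ∈ HH t s, asum s p + ∑ p ∈ FF t s, asum s p = _ at h6
    change _ = _ + ∑ p ∈ Nn t s, asum s p at h1
    linarith
  exact_mod_cast mul_right_cancel₀ pi_pos.ne' h7

theorem Part.degs (h : Part t s) : ∑ j, (pcs s (t j)).card + ∑ p ∈ HH t s, (pcs s p).card +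
    ∑ p ∈ FF t s, (pcs s p).card = 15 := by
  have h1 := h.fib fun _ => 1
  simp only [sum_const, card_univ, nsmul_eq_mul, mul_one, ← h.card_pcs] at h1
  have h2 := sum_filter_add_sum_filter_not (Nn t s) (fun p => asum s p = π)
    fun p => (pcs s p).card
  rw [add_assoc, HH, FF, h2]
  have h3 : Fintype.card (Fin 5 × Fin 3) = 15 := by simp
  rw [h3] at h1
  exact_mod_cast h1.symm

/-- The corner `j` lies in the piece `m` only. -/
structure Uns (t : Fin 3 → ℂ) (s : Fin 5 → Fin 3 → ℂ) (j : Fin 3) (m : Fin 5) (i : Fin 3)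
    (x y : ℝ) : Prop where
  v0 : s m i = t j
  x0 : 0 < x
  x1 : x ≤ 1
  y0 : 0 < y
  y1 : y ≤ 1
  v1 : s m (i + 1) - t j = x * (t (j + 1) - t j)
  v2 : s m (i + 2) - t j = y * (t (j + 2) - t j)
  un : ∀ m' i', s m' i' = t j → m' = m ∧ i' = i
  an : an (s m) i = an t j

theorem Part.uns (h : Part t s) {j : Fin 3} (hj : (pcs s (t j)).card ≤ 1) :
    ∃ m i x y, Uns t s j m i x y := by
  rw [h.card_pcs] at hj
  obtain ⟨m, i, e, x, x0, x1, hx⟩ := h.corner1 j
  obtain ⟨m', i', e', y, y0, y1, hy⟩ := h.corner2 j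
  have un : ∀ m' i', s m' i' = t j → m' = m ∧ i' = i := fun m' i' e' =>
    Prod.mk.inj (card_le_one.1 hj (m', i') (mem_inc.2 e') (m, i) (mem_inc.2 e))
  obtain ⟨rfl, rfl⟩ := un m' i' e'
  refine ⟨m', i', x, y, e, x0, x1, y0, y1, hx, hy, un, ?_⟩
  rw [← (h.corner j).1, asum, sum_eq_single_of_mem (m', i') (mem_inc.2 e) fun z hz hne =>
    absurd (Prod.ext (un _ _ (mem_inc.1 hz)).1 (un _ _ (mem_inc.1 hz)).2) hne]

theorem Dis.min_uns (h : Dis A t s) {j : Fin 3} (hj : an t j = A 0) : (pcs s (t j)).card ≤ 1 := by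
  rw [h.card_pcs]
  have h1 := card_nsmul_le_sum (inc s (t j)) (fun x => an (s x.1) x.2) (A 0) fun x _ => h.ge _ _
  have h2 := (h.corner j).1
  rw [asum, hj] at h2
  rw [h2, nsmul_eq_mul] at h1
  have : ((inc s (t j)).card : ℝ) ≤ 1 := by nlinarith [h.pos]
  exact_mod_cast this

variable {j : Fin 3} {m m' : Fin 5} {i i' : Fin 3} {x y x' y' : ℝ}

theorem Uns.eq1 (u : Uns t s j m i x y) (hx : x = 1) : s m (i + 1) = t (j + 1) := by
  have := u.v1
  rw [hx] at this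
  simpa using this

theorem Uns.eq2 (u : Uns t s j m i x y) (hy : y = 1) : s m (i + 2) = t (j + 2) := by
  have := u.v2
  rw [hy] at this
  simpa using this

/-- A vertex of the piece at an unsplit corner lies on one of the two sides. -/
theorem Uns.bd (u : Uns t s j m i x y) (k : Fin 3) :
    lam t (j + 1) (s m k) = 0 ∨ lam t (j + 2) (s m k) = 0 := by
  rcases tri3 i k with rfl | rfl | rfl
  · rw [u.v0]; exact Or.inl (lam_s1 t j)
  · exact Or.inr (lam_side1 t j u.v1).2.2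
  · exact Or.inl (lam_side2 t j u.v2).2.1

theorem Uns.notMem (u : Uns t s j m i x y) {p : ℂ} (h1 : 0 < lam t (j + 1) p)
    (h2 : 0 < lam t (j + 2) p) : m ∉ pcs s p := by
  intro hm
  obtain ⟨k, rfl⟩ := mem_pcs.1 hm
  rcases u.bd k with e | e <;> linarith

theorem Part.adj (h : Part t s) (u : Uns t s j m i x y) (u' : Uns t s (j + 1) m' i' x' y') :
    x < 1 ∧ y' < 1 ∧ m ≠ m' := by
  have hne : m ≠ m' := by
    rintro rfl
    have hv := u'.v0
    rcases tri3 i i' with rfl | rfl | rfl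
    · exact ne1 j (inj_of h.pt.ne' (hv.symm.trans u.v0))
    · have h1 := (lam_side1 t (j + 1) u'.v1).2.2
      rw [a12, a11, (lam_side2 t j u.v2).1] at h1
      have h2 : y = 1 := by
        have := (mul_eq_zero.1 h1).resolve_right h.pt.ne'
        linarith
      exact h.not_all u.v0 hv (u.eq2 h2)
    · have h1 := (lam_side2 t j u.v2).2.1
      rw [hv, lam_self] at h1
      exact h.pt.ne' h1
  refine ⟨u.x1.lt_of_ne fun e => hne (u'.un _ _ (u.eq1 e)).1,
    u'.y1.lt_of_ne fun e => hne (u.un _ _ ((u'.eq2 e).trans (by rw [a12]))).1.symm, hne⟩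

theorem Part.edge_mem (h : Part t s) {m : Fin 5} {i : Fin 3} (he : Edge t (s m i)) :
    s m i ∈ HH t s :=
  mem_filter.2 ⟨mem_Nn.2 ⟨⟨m, i, rfl⟩, fun j e => not_edge_vertex t j (e ▸ he)⟩, (h.bdry he).1⟩

theorem Part.HH_ne (h : Part t s) (u : Uns t s j m i x y) : (HH t s).Nonempty := by
  rcases u.x1.eq_or_lt with e | e
  · rcases u.y1.eq_or_lt with e' | e'
    · exact (h.not_all u.v0 (u.eq1 e) (u.eq2 e')).elim
    · exact ⟨_, h.edge_mem (edge_side2 h.pt j u.y0 e' u.v2)⟩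
  · exact ⟨_, h.edge_mem (edge_side1 h.pt j u.x0 e u.v1)⟩

theorem Dis.deg_HH (h : Dis A t s) {p : ℂ} (hp : p ∈ HH t s) : 3 ≤ (pcs s p).card :=
  h.deg3 (Or.inl (mem_filter.1 hp).2)

theorem Dis.not_four (h : Dis A t s) : (HH t s).card ≠ 4 := by
  intro h4
  have h1 := h.degs
  have h2 := card_nsmul_le_sum (HH t s) (fun p => (pcs s p).card) 3 fun p hp => h.deg_HH hp
  have h3 : ∀ j, 1 ≤ (pcs s (t j)).card := fun j => h.card_pcs _ ▸ h.corner_pos j
  rw [h4, smul_eq_mul] at h2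
  have h5 : ∀ j, (pcs s (t j)).card ≤ 1 := by
    have a0 := h3 0
    have a1 := h3 1
    have a2 := h3 2
    rw [Fin.sum_univ_three] at h1
    intro j
    rcases tri3 0 j with rfl | rfl | rfl
    · omega
    · change (pcs s (t 1)).card ≤ 1; omega
    · change (pcs s (t 2)).card ≤ 1; omega
  choose m i x y u using fun j => h.uns (h5 j)
  have ad := fun j => h.adj (u j) (u (j + 1))
  by_cases hc : ∀ j, s (m j) (i j + 1) = s (m (j + 1)) (i (j + 1) + 2)
  · obtain ⟨p, hp, hp'⟩ := exists_mem_notMem_of_card_lt_card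
      (s := univ.image fun j => s (m j) (i j + 1)) (t := HH t s)
      (lt_of_le_of_lt card_image_le (by rw [h4]; simp))
    have hn : ∀ j, m j ∉ pcs s p := by
      intro j hj
      obtain ⟨k, rfl⟩ := mem_pcs.1 hj
      rcases tri3 (i j) k with rfl | rfl | rfl
      · exact (mem_Nn.1 (mem_filter.1 hp).1).2 j (u j).v0.symm
      · exact hp' (mem_image.2 ⟨j, mem_univ _, rfl⟩)
      · exact hp' (mem_image.2 ⟨j + 2, mem_univ _, by rw [hc, a21]⟩)
    have h6 := h.deg_HH hp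
    have h7 : (pcs s p ∪ {m 0, m 1, m 2}).card ≤ 5 := (card_le_univ _).trans (by simp)
    have h8 : ({m 0, m 1, m 2} : Finset (Fin 5)).card = 3 := card_eq_three.2
      ⟨_, _, _, (ad 0).2.2, (ad 2).2.2.symm, (ad 1).2.2, rfl⟩
    rw [card_union_of_disjoint (by simp [hn]), h8] at h7
    omega
  · obtain ⟨j, hj⟩ := not_forall.1 hc
    obtain ⟨a1, a2, a3⟩ := lam_side1 t j (u j).v1
    obtain ⟨b1, b2, b3⟩ := lam_side2 t (j + 1) (u (j + 1)).v2
    rw [a11] at b2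
    rw [a12] at b3
    have c1 := (ad j).1
    have c2 := (ad j).2.1
    have d1 := inter_two
      ((u (j + 2)).notMem (p := s (m j) (i j + 1))
        (by rw [a21, a1]; exact mul_pos (by linarith) h.pt)
        (by rw [a22, a2]; exact mul_pos (u j).x0 h.pt))
      ((u (j + 2)).notMem (p := s (m (j + 1)) (i (j + 1) + 2))
        (by rw [a21, b3]; exact mul_pos (u _).y0 h.pt)
        (by rw [a22, b1]; exact mul_pos (by linarith) h.pt))
      (h.deg_HH (h.edge_mem (edge_side1 h.pt j (u j).x0 c1 (u j).v1)))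
      (h.deg_HH (h.edge_mem (edge_side2 h.pt _ (u _).y0 c2 (u _).v2)))
    have d2 := h.one_bd hj a3 b2
    omega

end Pool.Agent.P.MP_70ee84_co

end

section

/-! The pieces around the full vertex. -/

open Complex Real Finset
open scoped Classical

namespace Pool.Agent.P.MP_70ee84_co

variable {A : Fin 3 → ℝ} {t : Fin 3 → ℂ} {s : Fin 5 → Fin 3 → ℂ}
variable {j : Fin 3} {m : Fin 5} {i : Fin 3} {x y : ℝ} {W : ℂ}

theorem vert (t : Fin 3 → ℂ) (s : Fin 5 → Fin 3 → ℂ) (m : Fin 5) (i : Fin 3) :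
    (∃ j, t j = s m i) ∨ s m i ∈ Nn t s := by
  by_cases hc : ∃ j, t j = s m i
  · exact Or.inl hc
  · exact Or.inr (mem_Nn.2 ⟨⟨m, i, rfl⟩, not_exists.1 hc⟩)

theorem Dis.tj (h : Dis A t s) (u : Uns t s j m i x y) (hW : Inn t W) (h3 : 3 ≤ (pcs s W).card)
    {a b : Fin 5} {k : Fin 3} (he : Edge (s b) (s a k)) :
    2 ≤ (pcs s W ∩ pcs s (s a k)).card := by
  have h1 := nx_pos (Or.inl he)
  rcases vert t s a k with ⟨l, hl⟩ | hn
  · have := (h.corner l).2
    rw [hl] at this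
    omega
  · rcases h.kind hn with ⟨-, -, h2⟩ | ⟨-, -, h2⟩ | h2
    · omega
    · omega
    · exact inter_two (u.notMem (hW _) (hW _)) (u.notMem (h2.1 _) (h2.1 _)) h3
        (h.deg3 (Or.inl h2.2.1))

/-- The edges at the full vertex match in length. -/
theorem Dis.next1 (h : Dis A t s) (u : Uns t s j m i x y) (hW : W ∈ FF t s) (z : Fin 5 × Fin 3)
    (hz : z ∈ inc s W) : ∃ z' ∈ inc s W, s z.1 (z.2 + 2) = s z'.1 (z'.2 + 1) := by
  obtain ⟨a, k⟩ := z
  obtain ⟨h1, h2, h3⟩ := h.full hW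
  have h4 := h.deg3 (Or.inr h2)
  obtain rfl : s a k = W := mem_inc.1 hz
  obtain ⟨b, l, e, hne, c, hc, hv⟩ := h.next h1 h3
  refine ⟨(b, l), mem_inc.2 e, ?_⟩
  rcases lt_trichotomy c 1 with h5 | rfl | h5
  · have he : Edge (s b) (s a (k + 2)) := edge_side1 (h.ps b) l hc h5 (by rw [← hv, e])
    have key : ∀ p ∈ pcs s (s a k) ∩ pcs s (s a (k + 2)), De s p (s a (k + 2)) (s a k) :=
      fun p hp => (de_of (fun e' => ne2 k (h.idx e').symm) hp).resolve_left fun ⟨n, n1, n2⟩ => by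
        obtain rfl : p = b := h.first_uniq hc (n1.trans e.symm) (by rw [n1, n2, hv])
        exact not_edge_vertex _ _ (n2 ▸ he)
    have h6 := h.tj u h1 h4 he
    have h7 := card_le_one.2 fun p hp q hq => h.de_uniq (key p hp) (key q hq)
    omega
  · rw [e] at hv
    simpa using hv
  · have hv' := inv_ray hc hv
    have he : Edge (s a) (s b (l + 1)) := edge_side2 (h.ps a) k (inv_pos.2 hc)
      (inv_lt_one_of_one_lt₀ h5) (by rw [← hv', e])
    have key : ∀ p ∈ pcs s (s a k) ∩ pcs s (s b (l + 1)), De s p (s a k) (s b (l + 1)) :=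
      fun p hp => (de_of (fun e' => ne1 l (h.idx (e.trans e')).symm) hp).resolve_right
        fun ⟨n, n1, n2⟩ => by
        obtain rfl : p = a := h.last_uniq (i := n + 1) (inv_pos.2 hc) n2
          (by rw [a12, n1, n2, ← hv', e])
        exact not_edge_vertex _ _ (n1 ▸ he)
    have h6 := h.tj u h1 h4 he
    have h7 := card_le_one.2 fun p hp q hq => h.de_uniq (key p hp) (key q hq)
    omega

theorem Part.inj1 (h : Part t s) (W : ℂ) :
    Set.InjOn (fun z : Fin 5 × Fin 3 => s z.1 (z.2 + 1)) (inc s W) := by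
  rintro ⟨a, k⟩ h1 ⟨b, l⟩ h2 e
  have e1 : s a k = W := mem_inc.1 h1
  have e2 : s b l = W := mem_inc.1 h2
  obtain rfl : a = b := h.de_uniq ⟨k, e1, e⟩ ⟨l, e2, rfl⟩
  exact Prod.ext rfl (h.idx (e1.trans e2.symm))

theorem Part.inj2 (h : Part t s) (W : ℂ) :
    Set.InjOn (fun z : Fin 5 × Fin 3 => s z.1 (z.2 + 2)) (inc s W) := by
  rintro ⟨a, k⟩ h1 ⟨b, l⟩ h2 e
  have e1 : s a k = W := mem_inc.1 h1
  have e2 : s b l = W := mem_inc.1 h2
  obtain rfl : a = b := h.de_uniq (q := W) ⟨k + 2, e, by rwa [a21]⟩ ⟨l + 2, rfl, by rwa [a21]⟩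
  exact Prod.ext rfl (h.idx (e1.trans e2.symm))

/-- The law of sines around the full vertex. -/
theorem Dis.prod (h : Dis A t s) (u : Uns t s j m i x y) (hW : W ∈ FF t s) :
    ∑ z ∈ inc s W, (Real.log (Real.sin (an (s z.1) (z.2 + 1))) -
      Real.log (Real.sin (an (s z.1) (z.2 + 2)))) = 0 := by
  choose! nxt h1 h2 using h.next1 u hW
  have inj : Set.InjOn nxt (inc s W) := fun a ha b hb e =>
    h.inj2 W ha hb (by simp only [h2 a ha, h2 b hb, e])
  have e : ∑ z ∈ inc s W, Real.log ‖s z.1 (z.2 + 2) - W‖ =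
      ∑ z ∈ inc s W, Real.log ‖s z.1 (z.2 + 1) - W‖ :=
    sum_nbij nxt h1 inj (surjOn_of_injOn_of_card_le nxt h1 inj le_rfl) fun z hz => by rw [h2 z hz]
  rw [← sub_eq_zero.2 e, ← sum_sub_distrib]
  refine sum_congr rfl fun z hz => ?_
  have h3 := congrArg Real.log (an_sin (s z.1) z.2)
  have h4 := fun k => (Real.sin_pos_of_pos_of_lt_pi (an_pos (h.ps z.1) k) (an_lt (h.ps z.1) k)).ne'
  rw [Real.log_mul (norm_ne_zero_iff.2 (side1_ne (h.ps _) _)) (h4 _),
    Real.log_mul (norm_ne_zero_iff.2 (side2_ne (h.ps _) _)) (h4 _), mem_inc.1 hz] at h3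
  linarith

theorem enum {α : Type} {S : Finset α} {n : ℕ} (h : S.card = n) :
    ∃ e : Fin n → α, (∀ z ∈ S, ∃ k, e k = z) ∧ ∀ f : α → ℝ, ∑ z ∈ S, f z = ∑ k, f (e k) :=
  ⟨fun k => (S.equivFinOfCardEq h).symm k, fun z hz => ⟨S.equivFinOfCardEq h ⟨z, hz⟩, by simp⟩,
    fun f => (sum_coe_sort S f).symm.trans ((S.equivFinOfCardEq h).symm.sum_comp fun z => f z).symm⟩

theorem Ord.rho {a l r : ℝ} (h : Ord A a l r) (L : ℝ → ℝ) :
    a = A 0 ∨ (a = A 1 ∧ (L l - L r = L (A 2) - L (A 0) ∨ L l - L r = -(L (A 2) - L (A 0)))) ∨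
      (a = A 2 ∧ (L l - L r = L (A 1) - L (A 0) ∨ L l - L r = -(L (A 1) - L (A 0)))) := by
  rcases h with ⟨a, -⟩ | ⟨a, ⟨rfl, rfl⟩ | ⟨rfl, rfl⟩⟩ | ⟨a, ⟨rfl, rfl⟩ | ⟨rfl, rfl⟩⟩ <;> simp [a]

theorem arith4 {θ u w : ℝ} (h0 : 0 < θ) (h1 : 0 < u) (h2 : u < w) (h3 : w < 3 * u)
    (a r : Fin 4 → ℝ) (h : ∀ k, a k = θ ∨ (a k = 2 * θ ∧ (r k = w ∨ r k = -w)) ∨
      (a k = 4 * θ ∧ (r k = u ∨ r k = -u))) (ha : ∑ k, a k = 14 * θ) (hr : ∑ k, r k = 0) :
    False := by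
  rw [Fin.sum_univ_four] at ha hr
  rcases h 0 with a0 | ⟨a0, r0⟩ | ⟨a0, r0⟩ <;> rcases h 1 with a1 | ⟨a1, r1⟩ | ⟨a1, r1⟩ <;>
    rcases h 2 with a2 | ⟨a2, r2⟩ | ⟨a2, r2⟩ <;> rcases h 3 with a3 | ⟨a3, r3⟩ | ⟨a3, r3⟩ <;>
    first
    | linarith
    | rcases r0 with r0 | r0 <;> rcases r1 with r1 | r1 <;> rcases r2 with r2 | r2 <;>
        rcases r3 with r3 | r3 <;> linarith

theorem seven {θ : ℝ} (h : 7 * θ = π) :
    0 < Real.log (Real.sin (2 * θ)) - Real.log (Real.sin θ) ∧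
    Real.log (Real.sin (2 * θ)) < Real.log (Real.sin (4 * θ)) ∧
    Real.log (Real.sin (4 * θ)) - Real.log (Real.sin θ) <
      3 * (Real.log (Real.sin (2 * θ)) - Real.log (Real.sin θ)) := by
  have p := pi_pos
  have s0 := Real.sin_pos_of_pos_of_lt_pi (x := θ) (by linarith) (by linarith)
  have s1 := Real.sin_pos_of_pos_of_lt_pi (x := 2 * θ) (by linarith) (by linarith)
  have s2 := Real.sin_pos_of_pos_of_lt_pi (x := 4 * θ) (by linarith) (by linarith)
  have c1 : Real.cos (π / 3) < Real.cos θ :=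
    Real.cos_lt_cos_of_nonneg_of_le_pi (by linarith) (by linarith) (by linarith)
  have c2 : Real.cos (π / 3) < Real.cos (2 * θ) :=
    Real.cos_lt_cos_of_nonneg_of_le_pi (by linarith) (by linarith) (by linarith)
  rw [Real.cos_pi_div_three] at c1 c2
  have e1 := Real.sin_two_mul θ
  have e2 := Real.sin_two_mul (2 * θ)
  rw [show 2 * (2 * θ) = 4 * θ by ring] at e2
  refine ⟨sub_pos.2 (Real.log_lt_log s0 (by nlinarith)), Real.log_lt_log s1 (by nlinarith), ?_⟩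
  have h1 : Real.sin θ ^ 2 * Real.sin (4 * θ) < Real.sin (2 * θ) ^ 3 := by
    have h2 : Real.sin (2 * θ) ^ 3 - Real.sin θ ^ 2 * Real.sin (4 * θ) =
        2 * Real.sin θ ^ 2 * Real.sin (2 * θ) := by
      rw [e2, Real.cos_two_mul, e1]; ring
    have h3 : 0 < 2 * Real.sin θ ^ 2 * Real.sin (2 * θ) := by positivity
    linarith
  have h2 := Real.log_lt_log (by positivity) h1
  rw [Real.log_mul (by positivity) s2.ne', Real.log_pow, Real.log_pow] at h2
  push_cast at h2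
  linarith

end Pool.Agent.P.MP_70ee84_co

end

section

/-! The classification for positively oriented triangles. -/

open Complex Real Finset
open scoped Classical

namespace Pool.Agent.P.MP_70ee84_co

variable {A : Fin 3 → ℝ} {t : Fin 3 → ℂ} {s : Fin 5 → Fin 3 → ℂ}
variable {j : Fin 3} {m : Fin 5} {i : Fin 3} {x y : ℝ} {W : ℂ}

theorem Dis.cards (h : Dis A t s) (u : Uns t s j m i x y) :
    (HH t s).card = 2 ∧ (FF t s).card = 1 := by
  have h1 := h.euler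
  have h2 := h.not_four
  have h3 := card_pos.2 (h.HH_ne u)
  omega

theorem sum3 (j : Fin 3) (f : Fin 3 → ℕ) : ∑ k, f k = f j + f (j + 1) + f (j + 2) := by
  fin_cases j <;> simp [Fin.sum_univ_three] <;> ring

theorem Dis.split (h : Dis A t s) {k : Fin 3} (hk : (pcs s (t k)).card = 2) :
    an t k = 2 * A 0 ∨ an t k = A 0 + A 1 ∨ an t k = 2 * A 1 ∨ A 2 < an t k := by
  rw [h.card_pcs] at hk
  obtain ⟨e, -, he⟩ := enum hk
  have h1 := (h.corner k).1
  rw [asum, he, Fin.sum_univ_two] at h1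
  have h2 := h.pos
  have h3 := h.m01
  have h4 := h.m12
  rcases h.val (e 0).1 (e 0).2 with a | a | a <;> rcases h.val (e 1).1 (e 1).2 with b | b | b <;>
    first
    | exact Or.inl (by linarith)
    | exact Or.inr (Or.inl (by linarith))
    | exact Or.inr (Or.inr (Or.inl (by linarith)))
    | exact Or.inr (Or.inr (Or.inr (by linarith)))

theorem HH_ne_t {p : ℂ} (hp : p ∈ HH t s) (k : Fin 3) : t k ≠ p :=
  (mem_Nn.1 (mem_filter.1 hp).1).2 k

theorem HH_ne_FF {p : ℂ} (hp : p ∈ HH t s) (hW : W ∈ FF t s) : p ≠ W := fun e =>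
  (mem_filter.1 hW).2 (e ▸ (mem_filter.1 hp).2)

theorem Dis.not_deg4 (h : Dis A t s) (u : Uns t s j m i x y) (hj : an t j = A 0)
    (hF : FF t s = {W}) : (pcs s W).card ≠ 4 := by
  intro h4
  have hW : W ∈ FF t s := by simp [hF]
  obtain ⟨w1, w2, -⟩ := h.full hW
  have hm := u.notMem (w1 _) (w1 _)
  have key : ∀ p, p ≠ W → m ∉ pcs s p → (pcs s p).card ≤ 2 := fun p hp hm' => by
    have a := h.two hp
    have b := card_miss (S := pcs s p ∪ pcs s W) (a := m) (by simp [hm, hm'])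
    have c := card_union_add_card_inter (pcs s p) (pcs s W)
    omega
  have key3 : ∀ p, p ≠ W → (pcs s p).card ≤ 3 := fun p hp => by
    have a := h.two hp
    have b : (pcs s p ∪ pcs s W).card ≤ 5 := (card_le_univ _).trans (by simp)
    have c := card_union_add_card_inter (pcs s p) (pcs s W)
    omega
  obtain ⟨P, Q, hPQ, hH⟩ := card_eq_two.1 (h.cards u).1
  have hP : P ∈ HH t s := by simp [hH]
  have hQ : Q ∈ HH t s := by simp [hH]
  have mH : ∀ p ∈ HH t s, m ∈ pcs s p := fun p hp => by_contra fun hc => by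
    have h1 := key p (HH_ne_FF hp hW) hc
    have h2 := h.deg_HH hp
    omega
  have c1 : ∀ k, k ≠ j → (pcs s (t k)).card ≤ 2 := by
    refine fun k hk => key _ ((mem_Nn.1 (mem_filter.1 hW).1).2 k) fun hm' => ?_
    obtain ⟨a, ha⟩ := mem_pcs.1 (mH P hP)
    obtain ⟨b, hb⟩ := mem_pcs.1 (mH Q hQ)
    obtain ⟨c, hc⟩ := mem_pcs.1 hm'
    have four : ∀ a b c d : Fin 3, a = b ∨ a = c ∨ a = d ∨ b = c ∨ b = d ∨ c = d := by decide
    rcases four a b c i with rfl | rfl | rfl | rfl | rfl | rfl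
    · exact hPQ (ha.symm.trans hb)
    · exact HH_ne_t hP k (hc.symm.trans ha)
    · exact HH_ne_t hP j (u.v0.symm.trans ha)
    · exact HH_ne_t hQ k (hc.symm.trans hb)
    · exact HH_ne_t hQ j (u.v0.symm.trans hb)
    · exact hk (inj_of h.pt.ne' (hc.symm.trans u.v0))
  have d := h.degs
  rw [sum3 j, hH, hF, sum_pair hPQ, sum_singleton] at d
  have d0 := h.min_uns hj
  have d1 := c1 _ (ne1 j)
  have d2 := c1 _ (ne2 j)
  have d3 := key3 P (HH_ne_FF hP hW)
  have d4 := key3 Q (HH_ne_FF hQ hW)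
  have e1 := h.split (k := j + 1) (by omega)
  have e2 := h.split (k := j + 2) (by omega)
  have p0 := h.pos
  have p1 := h.m01
  have p2 := h.m12
  have p3 := h.sum
  have q : A 1 = 2 * A 0 ∧ (A 2 = 2 * A 0 ∨ A 2 = 4 * A 0) := by
    rcases h.ot j with ⟨-, ⟨b, c⟩ | ⟨b, c⟩⟩ | ⟨-, ⟨b, c⟩ | ⟨b, c⟩⟩ | ⟨-, ⟨b, c⟩ | ⟨b, c⟩⟩ <;>
      rcases e1 with e1 | e1 | e1 | e1 <;> rcases e2 with e2 | e2 | e2 | e2 <;>
      first
      | (exfalso; linarith)
      | exact ⟨by linarith, Or.inl (by linarith)⟩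
      | exact ⟨by linarith, Or.inr (by linarith)⟩
      | exact (h.nr 2 (by linarith)).elim
  rw [h.card_pcs] at h4
  obtain ⟨e, -, he⟩ := enum h4
  rw [asum, he] at w2
  rcases q with ⟨q1, q2 | q2⟩
  · have : ∀ k, an (s (e k).1) (e k).2 ≤ 2 * A 0 := fun k => by
      rcases h.val (e k).1 (e k).2 with a | a | a <;> linarith
    rw [Fin.sum_univ_four] at w2
    linarith [this 0, this 1, this 2, this 3]
  · obtain ⟨s1, s2, s3⟩ := seven (θ := A 0) (by linarith)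
    have r := h.prod u hW
    rw [he] at r
    refine arith4 p0 s1 (sub_lt_sub_right s2 _) s3 _ _ (fun k => ?_) (w2.trans (by linarith)) r
    have := (h.os (e k).1 (e k).2).rho fun x => Real.log (Real.sin x)
    rwa [q2, q1] at this

theorem Dis.angles (h : Dis A t s) (u : Uns t s j m i x y) (hW : W ∈ FF t s)
    (h3 : (pcs s W).card = 3) :
    A 0 = π / 6 ∧ A 1 = π / 6 ∧ A 2 = 2 * π / 3 ∧ ∀ z ∈ inc s W, an (s z.1) z.2 = 2 * π / 3 := by
  have w2 := (h.full hW).2.1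
  rw [h.card_pcs] at h3
  obtain ⟨e, hs, he⟩ := enum h3
  have r := h.prod u hW
  rw [he, Fin.sum_univ_three] at r
  rw [asum, he, Fin.sum_univ_three] at w2
  have p0 := h.pos
  have p1 := h.m01
  have p2 := h.m12
  have p3 := h.sum
  have q : ∀ k, an (s (e k).1) (e k).2 = A 2 ∧ A 2 = 2 * π / 3 := by
    rcases h.val (e 0).1 (e 0).2 with a | a | a <;> rcases h.val (e 1).1 (e 1).2 with b | b | b <;>
      rcases h.val (e 2).1 (e 2).2 with c | c | c <;>
      first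
      | (exfalso; linarith)
      | exact (all3 0).2 ⟨⟨a, by linarith⟩, ⟨b, by linarith⟩, c, by linarith⟩
  have q2 := (q 0).2
  have g := fun k => (((h.os (e k).1 (e k).2).rho fun x => Real.log (Real.sin x)).resolve_left
    fun a => by linarith [(q k).1]).resolve_left fun a => by linarith [(q k).1, a.1]
  have q3 : Real.log (Real.sin (A 1)) = Real.log (Real.sin (A 0)) := by
    rcases (g 0).2 with a | a <;> rcases (g 1).2 with b | b <;> rcases (g 2).2 with c | c <;>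
      linarith
  have q4 := injOn_sin ⟨by linarith, by linarith⟩ ⟨by linarith, by linarith⟩ (log_injOn_pos
    (Real.sin_pos_of_pos_of_lt_pi (by linarith) (by linarith))
    (Real.sin_pos_of_pos_of_lt_pi (by linarith) (by linarith)) q3)
  refine ⟨by linarith, by linarith, q2, fun z hz => ?_⟩
  obtain ⟨k, rfl⟩ := hs z hz
  exact (q k).1.trans q2

/-- An isosceles triangle: one leg is the other one rotated. -/
theorem rot {v : Fin 3 → ℂ} (h : 0 < ar v) (j : Fin 3) (e : an v (j + 1) = an v (j + 2)) :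
    v (j + 2) - v j = ee (an v j) * (v (j + 1) - v j) := by
  obtain ⟨-, -, r, r', a, hr, hr', ha, hb⟩ := vertex_polar h j
  have h1 := an_sin v j
  have h2 : ∀ b, ‖ee b‖ = 1 := norm_exp_ofReal_mul_I
  rw [e, ha, hb, norm_mul, norm_mul, h2, h2, norm_real, norm_real, Real.norm_of_nonneg hr.le,
    Real.norm_of_nonneg hr'.le] at h1
  have h3 := mul_right_cancel₀ (Real.sin_pos_of_pos_of_lt_pi (an_pos h _) (an_lt h _)).ne' h1
  rw [mul_one, mul_one] at h3
  rw [ha, hb, ee_add, h3]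
  ring

theorem om : ee (2 * π / 3) ^ 2 + ee (2 * π / 3) + 1 = 0 := by
  have h1 : Real.cos (2 * π / 3) = -(1 / 2) := by
    rw [show 2 * π / 3 = π - π / 3 by ring, Real.cos_pi_sub, Real.cos_pi_div_three]
  have h2 := Real.sin_sq_add_cos_sq (2 * π / 3)
  rw [h1] at h2
  apply Complex.ext <;> simp [sq, ee_re, ee_im, h1] <;> nlinarith

theorem range_eq (v : Fin 3 → ℂ) (i : Fin 3) : Set.range v = {v i, v (i + 1), v (i + 2)} := by
  ext z
  simp only [Set.mem_range, Set.mem_insert_iff, Set.mem_singleton_iff]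
  constructor
  · rintro ⟨k, rfl⟩
    rcases tri3 i k with rfl | rfl | rfl <;> simp
  · rintro (rfl | rfl | rfl) <;> exact ⟨_, rfl⟩

end Pool.Agent.P.MP_70ee84_co

end
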