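import Mathlib

set_option autoImplicit false

section

/-! Triangles in the plane, flags, and the partition identity of a dissection. -/

open Complex Filter Topology

namespace Pool.Agent.P.MP_70ee84_co

/-- The cross product. -/
def cr (u w : ℂ) : ℝ := u.re * w.im - u.im * w.re

/-- Barycentric coordinates, not normalised. -/
def lam (v : Fin 3 → ℂ) (k : Fin 3) (z : ℂ) : ℝ := cr (v (k + 1) - z) (v (k + 2) - z)

/-- The linear part of `lam`. -/
def dl (v : Fin 3 → ℂ) (k : Fin 3) (u : ℂ) : ℝ := cr (v (k + 2) - v (k + 1)) u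

/-- Twice the signed area. -/
def ar (v : Fin 3 → ℂ) : ℝ := cr (v 1 - v 0) (v 2 - v 0)

def Lex0 (y z : ℝ) : Prop := 0 < y ∨ (y = 0 ∧ 0 < z)

def Lex (x y z : ℝ) : Prop := 0 < x ∨ (x = 0 ∧ Lex0 y z)

/-- The point `p + ε u + ε ^ 2 w` lies in the open triangle for all small `ε > 0`. -/
def Fl (v : Fin 3 → ℂ) (p u w : ℂ) : Prop := ∀ k, Lex (lam v k p) (dl v k u) (dl v k w)

@[simp] theorem a11 (k : Fin 3) : k + 1 + 1 = k + 2 := by revert k; decide
@[simp] theorem a12 (k : Fin 3) : k + 1 + 2 = k := by revert k; decide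
@[simp] theorem a21 (k : Fin 3) : k + 2 + 1 = k := by revert k; decide
@[simp] theorem a22 (k : Fin 3) : k + 2 + 2 = k + 1 := by revert k; decide
theorem tri3 (j k : Fin 3) : k = j ∨ k = j + 1 ∨ k = j + 2 := by revert j k; decide
theorem all3 (j : Fin 3) {P : Fin 3 → Prop} : (∀ k, P k) ↔ P j ∧ P (j + 1) ∧ P (j + 2) :=
  ⟨fun h => ⟨h _, h _, h _⟩, fun h k => by rcases tri3 j k with rfl | rfl | rfl <;> tauto⟩
theorem ne1 (k : Fin 3) : k + 1 ≠ k := by revert k; decide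
theorem ne2 (k : Fin 3) : k + 2 ≠ k := by revert k; decide
theorem ne12 (k : Fin 3) : k + 1 ≠ k + 2 := by revert k; decide

theorem ar_eq (v : Fin 3 → ℂ) (j : Fin 3) : cr (v (j + 1) - v j) (v (j + 2) - v j) = ar v := by
  fin_cases j <;> simp [cr, ar] <;> ring

theorem lam_self (v : Fin 3 → ℂ) (j : Fin 3) : lam v j (v j) = ar v := ar_eq v j
theorem lam_s1 (v : Fin 3 → ℂ) (j : Fin 3) : lam v (j + 1) (v j) = 0 := by simp [lam, cr]
theorem lam_s2 (v : Fin 3 → ℂ) (j : Fin 3) : lam v (j + 2) (v j) = 0 := by simp [lam, cr]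
theorem dl_s1 (v : Fin 3 → ℂ) (j : Fin 3) (u : ℂ) :
    dl v (j + 1) u = cr u (v (j + 2) - v j) := by simp [dl, cr]; ring
theorem dl_s2 (v : Fin 3 → ℂ) (j : Fin 3) (u : ℂ) :
    dl v (j + 2) u = cr (v (j + 1) - v j) u := by simp [dl, cr]

theorem lam_add (v : Fin 3 → ℂ) (k : Fin 3) (z u : ℂ) : lam v k (z + u) = lam v k z + dl v k u := by
  simp [lam, dl, cr]; ring
theorem dl_mul (v : Fin 3 → ℂ) (k : Fin 3) (c : ℝ) (u : ℂ) : dl v k (c * u) = c * dl v k u := by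
  simp [dl, cr]; ring
theorem dl_neg (v : Fin 3 → ℂ) (k : Fin 3) (u : ℂ) : dl v k (-u) = -dl v k u := by
  simp [dl, cr]; ring

theorem sum_lam (v : Fin 3 → ℂ) (z : ℂ) : lam v 0 z + lam v 1 z + lam v 2 z = ar v := by
  simp [lam, ar, cr]; ring

theorem bary (v : Fin 3 → ℂ) (z : ℂ) :
    (ar v : ℂ) * z = lam v 0 z * v 0 + lam v 1 z * v 1 + lam v 2 z * v 2 := by
  apply Complex.ext <;> simp [lam, ar, cr] <;> ring

theorem inj_of {v : Fin 3 → ℂ} (h : ar v ≠ 0) : Function.Injective v := by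
  intro i j e
  rcases tri3 i j with rfl | rfl | rfl
  · rfl
  · rw [← ar_eq v i, ← e] at h; simp [cr] at h
  · rw [← ar_eq v i, ← e] at h; simp [cr] at h

theorem fl_vertex {v : Fin 3 → ℂ} (h : 0 < ar v) (j : Fin 3) (u w : ℂ) :
    Fl v (v j) u w ↔ Lex0 (cr u (v (j + 2) - v j)) (cr w (v (j + 2) - v j)) ∧
      Lex0 (cr (v (j + 1) - v j) u) (cr (v (j + 1) - v j) w) := by
  rw [Fl, all3 j, lam_self, lam_s1, lam_s2, dl_s1, dl_s1, dl_s2, dl_s2]
  simp [Lex, h]

theorem cont_lam (v : Fin 3 → ℂ) (k : Fin 3) : Continuous (lam v k) := by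
  unfold lam cr; fun_prop

theorem convex_lam (v : Fin 3 → ℂ) (k : Fin 3) : Convex ℝ {z | 0 ≤ lam v k z} := by
  intro x hx y hy a b ha hb hab
  have : lam v k (a • x + b • y) = a * lam v k x + b * lam v k y := by
    obtain rfl : b = 1 - a := by linarith
    simp [lam, cr]; ring
  simp only [Set.mem_ofPred_eq] at hx hy ⊢
  rw [this]; positivity

theorem mem_hull {v : Fin 3 → ℂ} (h : 0 < ar v) (z : ℂ) :
    z ∈ convexHull ℝ (Set.range v) ↔ ∀ k, 0 ≤ lam v k z := by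
  constructor
  · intro hz k
    refine convexHull_min ?_ (convex_lam v k) hz
    rintro _ ⟨j, rfl⟩
    change 0 ≤ lam v k (v j)
    rcases tri3 j k with rfl | rfl | rfl
    · rw [lam_self]; exact h.le
    · rw [lam_s1]
    · rw [lam_s2]
  · intro hz
    have h1 := (convex_convexHull ℝ (Set.range v)).sum_mem (t := Finset.univ)
      (w := fun k => lam v k z / ar v) (z := v) (fun k _ => div_nonneg (hz k) h.le)
      (by rw [Fin.sum_univ_three, ← add_div, ← add_div, sum_lam, div_self h.ne'])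
      fun k _ => subset_convexHull _ _ ⟨k, rfl⟩
    have h2 : (ar v : ℂ) ≠ 0 := by exact_mod_cast h.ne'
    convert h1 using 1
    rw [Fin.sum_univ_three]
    simp only [real_smul, ofReal_div]
    field_simp
    rw [mul_comm, bary]

theorem mem_int {v : Fin 3 → ℂ} (h : 0 < ar v) {z : ℂ} (hz : ∀ k, 0 < lam v k z) :
    z ∈ interior (convexHull ℝ (Set.range v)) := by
  have ho : IsOpen {z | ∀ k, 0 < lam v k z} := by
    rw [Set.ofPred_forall]
    exact isOpen_iInter_of_finite fun k => isOpen_lt continuous_const (cont_lam v k)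
  exact interior_maximal (fun y hy => (mem_hull h y).2 fun k => (hy k).le) ho hz

theorem lex_pos {x y z : ℝ} (h : Lex x y z) : ∀ᶠ ε in 𝓝[>] (0 : ℝ), 0 < x + ε * y + ε ^ 2 * z := by
  have hp : ∀ᶠ ε in 𝓝[>] (0 : ℝ), 0 < ε := self_mem_nhdsWithin
  rcases h with h | ⟨rfl, h | ⟨rfl, h⟩⟩
  · have : Continuous fun ε : ℝ => x + ε * y + ε ^ 2 * z := by fun_prop
    exact ((this.tendsto 0).eventually (lt_mem_nhds (by simpa using h))).filter_mono
      nhdsWithin_le_nhds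
  · have : Continuous fun ε : ℝ => y + ε * z := by fun_prop
    filter_upwards [hp, ((this.tendsto 0).eventually (lt_mem_nhds (by simpa using h))).filter_mono
      nhdsWithin_le_nhds] with ε h1 h2
    nlinarith [mul_pos h1 h2]
  · filter_upwards [hp] with ε h1
    have : 0 < ε ^ 2 * z := by positivity
    linarith

theorem lex_neg {x y z : ℝ} (h : ¬ Lex x y z) (h0 : y ≠ 0 ∨ z ≠ 0) : Lex (-x) (-y) (-z) := by
  simp only [Lex, Lex0, not_or, not_and, not_lt] at h ⊢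
  rcases h.1.eq_or_lt with e | e
  · rcases (h.2 e).1.eq_or_lt with e' | e'
    · have := ((h.2 e).2 e').lt_of_ne (h0.resolve_left (not_not.2 e'))
      exact Or.inr ⟨by linarith, Or.inr ⟨by linarith, by linarith⟩⟩
    · exact Or.inr ⟨by linarith, Or.inl (by linarith)⟩
  · exact Or.inl (by linarith)

theorem dl_ne {v : Fin 3 → ℂ} (h : 0 < ar v) (k : Fin 3) {u w : ℂ} (huw : cr u w ≠ 0) :
    dl v k u ≠ 0 ∨ dl v k w ≠ 0 := by
  by_contra hc
  rw [not_or, not_not, not_not] at hc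
  have h1 : v (k + 2) - v (k + 1) ≠ 0 := sub_ne_zero.2 fun e => ne12 k (inj_of h.ne' e).symm
  refine h1 (Complex.ext ?_ ?_)
  · refine (mul_eq_zero.1 (?_ : _ * cr u w = 0)).resolve_right huw
    have h2 := hc.1
    have h3 := hc.2
    simp only [dl, cr] at h2 h3 ⊢
    linear_combination u.re * h3 - w.re * h2
  · refine (mul_eq_zero.1 (?_ : _ * cr u w = 0)).resolve_right huw
    have h2 := hc.1
    have h3 := hc.2
    simp only [dl, cr] at h2 h3 ⊢
    linear_combination u.im * h3 - w.im * h2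

theorem fl_ev {v : Fin 3 → ℂ} (h : 0 < ar v) (p : ℂ) {u w : ℂ} (huw : cr u w ≠ 0) :
    ∀ᶠ ε in 𝓝[>] (0 : ℝ),
      (Fl v p u w → p + ε * u + (ε ^ 2 : ℝ) * w ∈ interior (convexHull ℝ (Set.range v))) ∧
      (p + ε * u + (ε ^ 2 : ℝ) * w ∈ convexHull ℝ (Set.range v) → Fl v p u w) := by
  by_cases hf : Fl v p u w
  · filter_upwards [eventually_all.2 fun k => lex_pos (hf k)] with ε hε
    refine ⟨fun _ => mem_int h fun k => ?_, fun _ => hf⟩
    rw [lam_add, lam_add, dl_mul, dl_mul]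
    exact hε k
  · obtain ⟨k, hk⟩ := not_forall.1 hf
    filter_upwards [lex_pos (lex_neg hk (dl_ne h k huw))] with ε hε
    refine ⟨fun h' => absurd h' hf, fun h' => ?_⟩
    have := (mem_hull h _).1 h' k
    rw [lam_add, lam_add, dl_mul, dl_mul] at this
    linarith

/-- The pieces `s m` partition the flags of `t`. -/
structure Part (t : Fin 3 → ℂ) (s : Fin 5 → Fin 3 → ℂ) : Prop where
  pt : 0 < ar t
  ps : ∀ m, 0 < ar (s m)
  cov : ∀ p u w, cr u w ≠ 0 → (Fl t p u w ↔ ∃ m, Fl (s m) p u w)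
  dis : ∀ p u w m m', cr u w ≠ 0 → Fl (s m) p u w → Fl (s m') p u w → m = m'

theorem part_of {t : Fin 3 → ℂ} {s : Fin 5 → Fin 3 → ℂ} (ht : 0 < ar t) (hs : ∀ m, 0 < ar (s m))
    (hd : Pairwise fun m m' => Disjoint (interior (convexHull ℝ (Set.range (s m))))
      (interior (convexHull ℝ (Set.range (s m')))))
    (hu : ⋃ m, convexHull ℝ (Set.range (s m)) = convexHull ℝ (Set.range t)) : Part t s := by
  refine ⟨ht, hs, fun p u w huw => ?_, fun p u w m m' huw h1 h2 => ?_⟩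
  · obtain ⟨ε, h1, h2⟩ := ((fl_ev ht p huw).and
      (eventually_all.2 fun m => fl_ev (hs m) p huw)).exists
    constructor
    · intro h
      have h3 := interior_subset (h1.1 h)
      rw [← hu] at h3
      obtain ⟨m, hm⟩ := Set.mem_iUnion.1 h3
      exact ⟨m, (h2 m).2 hm⟩
    · rintro ⟨m, hm⟩
      exact h1.2 (hu ▸ Set.mem_iUnion.2 ⟨m, interior_subset ((h2 m).1 hm)⟩)
  · obtain ⟨ε, h3, h4⟩ := ((fl_ev (hs m) p huw).and (fl_ev (hs m') p huw)).exists
    by_contra hne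
    exact Set.disjoint_left.1 (hd hne) (h3.1 h1) (h4.1 h2)

end Pool.Agent.P.MP_70ee84_co

end

section

/-! Angle sums. -/

open Complex Real EuclideanGeometry MeasureTheory
open scoped Classical

namespace Pool.Agent.P.MP_70ee84_co

/-- The angle at the vertex `j`. -/
noncomputable def an (v : Fin 3 → ℂ) (j : Fin 3) : ℝ := ∠ (v (j + 1)) (v j) (v (j + 2))

noncomputable def ee (θ : ℝ) : ℂ := Complex.exp (θ * I)

noncomputable def chi (v : Fin 3 → ℂ) (p : ℂ) (θ : ℝ) : ℝ :=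
  if Fl v p (ee θ) (I * ee θ) then 1 else 0

/-- The angle which the triangle occupies at `p`. -/
noncomputable def ang (v : Fin 3 → ℂ) (p : ℂ) : ℝ := ∫ θ in (0 : ℝ)..0 + 2 * π, chi v p θ

theorem ee_re (θ : ℝ) : (ee θ).re = Real.cos θ := exp_ofReal_mul_I_re θ
theorem ee_im (θ : ℝ) : (ee θ).im = Real.sin θ := exp_ofReal_mul_I_im θ
theorem ee_add (x y : ℝ) : ee (x + y) = ee x * ee y := by
  rw [ee, ee, ee, ← Complex.exp_add]; push_cast; ring_nf

theorem cr_I (u : ℂ) : cr u (I * u) = normSq u := by simp [cr, normSq_apply]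
theorem cr_I_ne {u : ℂ} (h : u ≠ 0) : cr u (I * u) ≠ 0 := by
  rw [cr_I]; exact (normSq_pos.2 h).ne'
theorem cr_nI_ne {u : ℂ} (h : u ≠ 0) : cr u (-(I * u)) ≠ 0 := by
  have : cr u (-(I * u)) = -cr u (I * u) := by simp [cr]; ring
  rw [this]; exact neg_ne_zero.2 (cr_I_ne h)

theorem cr_ee (r x y : ℝ) : cr (r * ee x) (ee y) = r * Real.sin (y - x) := by
  simp only [cr, mul_re, mul_im, ofReal_re, ofReal_im, ee_re, ee_im, Real.sin_sub]; ring
theorem cr_ee' (r x y : ℝ) : cr (ee y) (r * ee x) = r * Real.sin (x - y) := by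
  simp only [cr, mul_re, mul_im, ofReal_re, ofReal_im, ee_re, ee_im, Real.sin_sub]; ring

theorem polar (a : ℂ) : a = (‖a‖ : ℝ) * ee (arg a) := (norm_mul_exp_arg_mul_I a).symm

theorem chi_per (v : Fin 3 → ℂ) (p : ℂ) : Function.Periodic (chi v p) (2 * π) := fun θ => by
  have : ee (θ + 2 * π) = ee θ := by
    apply Complex.ext
    · rw [ee_re, ee_re, Real.cos_add_two_pi]
    · rw [ee_im, ee_im, Real.sin_add_two_pi]
  rw [chi, chi, this]

theorem chi_int (v : Fin 3 → ℂ) (p : ℂ) (a b : ℝ) : IntervalIntegrable (chi v p) volume a b := by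
  have h1 : Continuous ee := by unfold ee; fun_prop
  have h2 : ∀ k, Continuous (dl v k) := fun k => by unfold dl cr; fun_prop
  have hm : Measurable (chi v p) := by
    refine Measurable.ite (Measurable.setOf (Measurable.forall fun k => ?_)) measurable_const
      measurable_const
    have m1 : Measurable fun θ => dl v k (ee θ) := ((h2 k).comp h1).measurable
    have m2 : Measurable fun θ => dl v k (I * ee θ) :=
      ((h2 k).comp (continuous_const.mul h1)).measurable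
    exact measurable_const.or (measurable_const.and ((measurable_const.lt m1).or
      ((m1.eq measurable_const).and (measurable_const.lt m2))))
  refine (intervalIntegrable_const (c := (1 : ℝ))).mono_fun hm.aestronglyMeasurable
    (Filter.Eventually.of_forall fun θ => ?_)
  simp only [chi]
  split_ifs <;> simp

theorem ang_eval {v : Fin 3 → ℂ} {p : ℂ} (s φ : ℝ) (h0 : 0 ≤ φ) (h2 : φ ≤ 2 * π)
    (hin : ∀ τ, 0 < τ → τ < φ → Fl v p (ee (s + τ)) (I * ee (s + τ)))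
    (hout : ∀ τ, φ < τ → τ < 2 * π → ¬ Fl v p (ee (s + τ)) (I * ee (s + τ))) : ang v p = φ := by
  rw [ang, (chi_per v p).intervalIntegral_add_eq 0 s,
    ← intervalIntegral.integral_add_adjacent_intervals (chi_int v p s (s + φ)) (chi_int v p _ _),
    intervalIntegral.integral_congr_Ioo_of_le (g := fun _ => (1 : ℝ)) (by linarith),
    intervalIntegral.integral_congr_Ioo_of_le (a := s + φ) (g := fun _ => (0 : ℝ)) (by linarith)]
  · simp
  · intro θ hθ
    have := hout (θ - s) (by linarith [hθ.1]) (by linarith [hθ.2])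
    rw [add_sub_cancel] at this
    exact if_neg this
  · intro θ hθ
    have := hin (θ - s) (by linarith [hθ.1]) (by linarith [hθ.2])
    rw [add_sub_cancel] at this
    exact if_pos this

theorem Part.ang_sum {t : Fin 3 → ℂ} {s : Fin 5 → Fin 3 → ℂ} (h : Part t s) (p : ℂ) :
    ang t p = ∑ m, ang (s m) p := by
  simp only [ang]
  rw [← intervalIntegral.integral_finsetSum fun m _ => chi_int (s m) p _ _]
  refine intervalIntegral.integral_congr fun θ _ => ?_
  have hne := cr_I_ne (u := ee θ) (Complex.exp_ne_zero _)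
  simp only [chi]
  by_cases hf : Fl t p (ee θ) (I * ee θ)
  · obtain ⟨m, hm⟩ := (h.cov _ _ _ hne).1 hf
    rw [Finset.sum_eq_single m (fun m' _ e => if_neg fun h' => e (h.dis _ _ _ _ _ hne h' hm))
      (by simp)]
    simp only [if_pos hf, if_pos hm]
  · rw [Finset.sum_eq_zero fun m _ => if_neg fun h' => hf ((h.cov _ _ _ hne).2 ⟨m, h'⟩)]
    exact if_neg hf

theorem not_lex0 {y z : ℝ} (h : y < 0) : ¬ Lex0 y z := by
  rintro (h' | ⟨h', -⟩) <;> linarith

theorem sin_neg' {τ : ℝ} (h1 : π < τ) (h2 : τ < 2 * π) : Real.sin τ < 0 := by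
  rw [← Real.sin_sub_two_pi]
  exact Real.sin_neg_of_neg_of_neg_pi_lt (by linarith) (by linarith)

theorem vertex_polar {v : Fin 3 → ℂ} (h : 0 < ar v) (j : Fin 3) :
    0 < an v j ∧ an v j < π ∧ ∃ r r' s : ℝ, 0 < r ∧ 0 < r' ∧ v (j + 1) - v j = r * ee s ∧
      v (j + 2) - v j = r' * ee (s + an v j) := by
  set a := v (j + 1) - v j with ha
  set b := v (j + 2) - v j with hb
  have h1 : cr a b = ar v := ar_eq v j
  have a0 : a ≠ 0 := sub_ne_zero.2 fun e => ne1 j (inj_of h.ne' e)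
  have b0 : b ≠ 0 := sub_ne_zero.2 fun e => ne2 j (inj_of h.ne' e)
  have him : 0 < (b / a).im := by
    have : (b / a).im = cr a b / normSq a := by rw [div_im, cr]; ring
    rw [this, h1]
    exact div_pos h (normSq_pos.2 a0)
  have p1 : 0 < arg (b / a) :=
    (arg_nonneg_iff.2 him.le).lt_of_ne fun e => him.ne' (arg_eq_zero_iff.1 e.symm).2
  have e1 : an v j = arg (b / a) := by
    rw [an, EuclideanGeometry.angle, InnerProductGeometry.angle_comm, vsub_eq_sub, vsub_eq_sub,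
      angle_eq_abs_arg b0 a0, abs_of_pos p1]
  rw [e1]
  refine ⟨p1, arg_lt_pi_iff.2 (Or.inr him.ne'), ‖a‖, ‖a‖ * ‖b / a‖, arg a, norm_pos_iff.2 a0,
    mul_pos (norm_pos_iff.2 a0) (norm_pos_iff.2 (div_ne_zero b0 a0)), polar a, ?_⟩
  rw [ee_add]
  calc b = a * (b / a) := by field_simp
    _ = (‖a‖ : ℝ) * ee (arg a) * ((‖b / a‖ : ℝ) * ee (arg (b / a))) := by
      rw [← polar, ← polar]
    _ = _ := by push_cast; ring

theorem an_pos {v : Fin 3 → ℂ} (h : 0 < ar v) (j : Fin 3) : 0 < an v j := (vertex_polar h j).1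
theorem an_lt {v : Fin 3 → ℂ} (h : 0 < ar v) (j : Fin 3) : an v j < π := (vertex_polar h j).2.1

theorem ang_vertex {v : Fin 3 → ℂ} (h : 0 < ar v) (j : Fin 3) : ang v (v j) = an v j := by
  obtain ⟨h0, h1, r, r', s, hr, hr', ha, hb⟩ := vertex_polar h j
  refine ang_eval s _ h0.le (by linarith [pi_pos]) (fun τ t0 t1 => ?_) fun τ t0 t1 => ?_
  · rw [fl_vertex h, ha, hb, cr_ee, cr_ee']
    exact ⟨Or.inl (mul_pos hr' (Real.sin_pos_of_pos_of_lt_pi (by linarith) (by linarith))),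
      Or.inl (mul_pos hr (Real.sin_pos_of_pos_of_lt_pi (by linarith) (by linarith)))⟩
  · rw [fl_vertex h, ha, hb, cr_ee, cr_ee']
    rintro ⟨h2, h3⟩
    rcases le_or_gt τ π with h4 | h4
    · exact not_lex0 (mul_neg_of_pos_of_neg hr'
        (Real.sin_neg_of_neg_of_neg_pi_lt (by linarith) (by linarith))) h2
    · exact not_lex0 (mul_neg_of_pos_of_neg hr (sin_neg' (by linarith) (by linarith))) h3

/-- `p` lies on an open edge. -/
def Edge (v : Fin 3 → ℂ) (p : ℂ) : Prop :=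
  ∃ k, lam v k p = 0 ∧ 0 < lam v (k + 1) p ∧ 0 < lam v (k + 2) p

def Inn (v : Fin 3 → ℂ) (p : ℂ) : Prop := ∀ k, 0 < lam v k p

def Out (v : Fin 3 → ℂ) (p : ℂ) : Prop := ∃ k, lam v k p < 0

theorem ang_edge {v : Fin 3 → ℂ} (h : 0 < ar v) {p : ℂ} (hp : Edge v p) : ang v p = π := by
  obtain ⟨k, h0, h1, h2⟩ := hp
  have g0 : v (k + 2) - v (k + 1) ≠ 0 := sub_ne_zero.2 fun e => ne12 k (inj_of h.ne' e).symm
  have hr := norm_pos_iff.2 g0
  have key : ∀ u w, Fl v p u w ↔ Lex0 (dl v k u) (dl v k w) := fun u w => by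
    rw [Fl, all3 k]
    simp [Lex, h0, h1, h2]
  have e1 : ∀ τ, dl v k (ee (arg (v (k + 2) - v (k + 1)) + τ)) =
      ‖v (k + 2) - v (k + 1)‖ * Real.sin τ := fun τ => by
    rw [dl]
    nth_rw 1 [polar (v (k + 2) - v (k + 1))]
    rw [cr_ee, add_sub_cancel_left]
  refine ang_eval (arg (v (k + 2) - v (k + 1))) _ pi_pos.le (by linarith [pi_pos])
    (fun τ t0 t1 => ?_) fun τ t0 t1 => ?_
  · rw [key, e1]
    exact Or.inl (mul_pos hr (Real.sin_pos_of_pos_of_lt_pi t0 t1))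
  · rw [key, e1]
    exact not_lex0 (mul_neg_of_pos_of_neg hr (sin_neg' t0 t1))

theorem Inn.fl {v : Fin 3 → ℂ} {p : ℂ} (hp : Inn v p) (u w : ℂ) : Fl v p u w :=
  fun k => Or.inl (hp k)

theorem Out.not_fl {v : Fin 3 → ℂ} {p : ℂ} (hp : Out v p) (u w : ℂ) : ¬ Fl v p u w := by
  obtain ⟨k, hk⟩ := hp
  intro h
  rcases h k with h' | ⟨h', -⟩ <;> linarith

theorem ang_inn {v : Fin 3 → ℂ} {p : ℂ} (hp : Inn v p) : ang v p = 2 * π :=
  ang_eval 0 _ (by linarith [pi_pos]) le_rfl (fun _ _ _ => hp.fl _ _) fun _ h1 h2 => by linarith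

theorem ang_out {v : Fin 3 → ℂ} {p : ℂ} (hp : Out v p) : ang v p = 0 :=
  ang_eval 0 _ le_rfl (by linarith [pi_pos]) (fun _ _ _ => by linarith) fun _ _ _ => hp.not_fl _ _

theorem eq_vertex {v : Fin 3 → ℂ} (h : 0 < ar v) {p : ℂ} (j : Fin 3) (h1 : lam v (j + 1) p = 0)
    (h2 : lam v (j + 2) p = 0) : p = v j := by
  have h3 := bary v p
  have h4 := sum_lam v p
  have h5 : (ar v : ℂ) ≠ 0 := by exact_mod_cast h.ne'
  refine mul_left_cancel₀ h5 ?_
  rw [h3, ← h4]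
  fin_cases j <;> simp at h1 h2 <;> simp [h1, h2]

theorem cases4 {v : Fin 3 → ℂ} (h : 0 < ar v) (p : ℂ) :
    Out v p ∨ Inn v p ∨ Edge v p ∨ ∃ j, v j = p := by
  by_cases h1 : Out v p
  · exact Or.inl h1
  by_cases h2 : Inn v p
  · exact Or.inr (Or.inl h2)
  simp only [Out, Inn, not_exists, not_forall, not_lt] at h1 h2
  obtain ⟨k, hk⟩ := h2
  have h0 := le_antisymm hk (h1 k)
  rcases (h1 (k + 1)).eq_or_lt with e | e
  · exact Or.inr (Or.inr (Or.inr ⟨k + 2, (eq_vertex h _ (by simpa) (by simpa using e.symm)).symm⟩))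
  rcases (h1 (k + 2)).eq_or_lt with e' | e'
  · exact Or.inr (Or.inr (Or.inr ⟨k + 1, (eq_vertex h _ (by simpa using e'.symm) (by simpa)).symm⟩))
  exact Or.inr (Or.inr (Or.inl ⟨k, h0, e, e'⟩))

theorem an_sum {v : Fin 3 → ℂ} (h : 0 < ar v) (j : Fin 3) :
    an v j + an v (j + 1) + an v (j + 2) = π := by
  have := angle_add_angle_add_angle_eq_pi (p₁ := v (j + 2)) (p₂ := v j) (v (j + 1))
    fun e => ne2 j (inj_of h.ne' e).symm
  simp only [an, a11, a12, a21, a22]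
  rw [angle_comm (v (j + 1)), angle_comm (v (j + 2)) (v (j + 1)), angle_comm (v j) (v (j + 2))]
  exact this

theorem an_sin (v : Fin 3 → ℂ) (j : Fin 3) :
    ‖v (j + 1) - v j‖ * Real.sin (an v (j + 1)) = ‖v (j + 2) - v j‖ * Real.sin (an v (j + 2)) := by
  have := law_sin (v (j + 2)) (v (j + 1)) (v j)
  simp only [an, a11, a12, a21, a22]
  rw [dist_eq_norm, dist_comm, dist_eq_norm] at this
  linarith

end Pool.Agent.P.MP_70ee84_co

end

section

/-! The local structure of a dissection. -/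

open Complex Real Finset
open scoped Classical

namespace Pool.Agent.P.MP_70ee84_co

section one

variable {v : Fin 3 → ℂ}

theorem side1_ne (h : 0 < ar v) (j : Fin 3) : v (j + 1) - v j ≠ 0 :=
  sub_ne_zero.2 fun e => ne1 j (inj_of h.ne' e)
theorem side2_ne (h : 0 < ar v) (j : Fin 3) : v (j + 2) - v j ≠ 0 :=
  sub_ne_zero.2 fun e => ne2 j (inj_of h.ne' e)

theorem cr_l (c : ℝ) (a b : ℂ) : cr (c * a) b = c * cr a b := by simp [cr]; ring
theorem cr_r (c : ℝ) (a b : ℂ) : cr a (c * b) = c * cr a b := by simp [cr]; ring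
theorem cr_self (a : ℂ) : cr a a = 0 := by simp [cr]; ring
theorem cr_1 (c : ℝ) (a : ℂ) : cr a (I * (c * a)) = c * normSq a := by
  simp [cr, normSq_apply]; ring
theorem cr_2 (c : ℝ) (a : ℂ) : cr a (-(I * (c * a))) = -(c * normSq a) := by
  simp [cr, normSq_apply]; ring
theorem cr_3 (c : ℝ) (a : ℂ) : cr (I * (c * a)) a = -(c * normSq a) := by
  simp [cr, normSq_apply]; ring
theorem cr_4 (c : ℝ) (a : ℂ) : cr (-(I * (c * a))) a = c * normSq a := by
  simp [cr, normSq_apply]; ring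

theorem fl_first (h : 0 < ar v) (j : Fin 3) {c : ℝ} (hc : 0 < c) {u : ℂ}
    (hu : u = c * (v (j + 1) - v j)) : Fl v (v j) u (I * u) ∧ ¬ Fl v (v j) u (-(I * u)) := by
  have h1 := mul_pos hc (normSq_pos.2 (side1_ne h j))
  rw [fl_vertex h, fl_vertex h, hu, cr_l, cr_r, cr_self, ar_eq, cr_1, cr_2, mul_zero]
  refine ⟨⟨Or.inl (mul_pos hc h), Or.inr ⟨rfl, h1⟩⟩, ?_⟩
  rintro ⟨-, h2 | ⟨-, h2⟩⟩ <;> linarith

theorem fl_last (h : 0 < ar v) (j : Fin 3) {c : ℝ} (hc : 0 < c) {u : ℂ}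
    (hu : u = c * (v (j + 2) - v j)) : Fl v (v j) u (-(I * u)) ∧ ¬ Fl v (v j) u (I * u) := by
  have h1 := mul_pos hc (normSq_pos.2 (side2_ne h j))
  rw [fl_vertex h, fl_vertex h, hu, cr_l, cr_r, cr_self, ar_eq, cr_3, cr_4, mul_zero]
  refine ⟨⟨Or.inr ⟨rfl, h1⟩, Or.inl (mul_pos hc h)⟩, ?_⟩
  rintro ⟨h2 | ⟨-, h2⟩, -⟩ <;> linarith

theorem dec0 (a b u : ℂ) : (cr a b : ℂ) * u = cr u b * a + cr a u * b := by
  apply Complex.ext <;> simp [cr] <;> ring

theorem dec1 {a b u : ℂ} (h : 0 < cr a b) (hy : cr a u = 0) : u = (cr u b / cr a b : ℝ) * a := by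
  have h' : (cr a b : ℂ) ≠ 0 := by exact_mod_cast h.ne'
  have h1 := dec0 a b u
  rw [hy, ofReal_zero, zero_mul, add_zero] at h1
  rw [ofReal_div, div_mul_eq_mul_div, eq_div_iff h', ← h1, mul_comm]

theorem dec2 {a b u : ℂ} (h : 0 < cr a b) (hx : cr u b = 0) : u = (cr a u / cr a b : ℝ) * b := by
  have h' : (cr a b : ℂ) ≠ 0 := by exact_mod_cast h.ne'
  have h1 := dec0 a b u
  rw [hx, ofReal_zero, zero_mul, zero_add] at h1
  rw [ofReal_div, div_mul_eq_mul_div, eq_div_iff h', ← h1, mul_comm]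

theorem ray1 (h : 0 < ar v) (j : Fin 3) {u : ℂ} (hf : Fl v (v j) u (I * u)) :
    (∃ c : ℝ, 0 < c ∧ u = c * (v (j + 1) - v j)) ∨ Fl v (v j) u (-(I * u)) := by
  have hf0 := hf
  rw [fl_vertex h] at hf ⊢
  have hD : 0 < cr (v (j + 1) - v j) (v (j + 2) - v j) := by rwa [ar_eq]
  obtain ⟨hx | ⟨hx, hx'⟩, hy | ⟨hy, hy'⟩⟩ := hf
  · exact Or.inr ⟨Or.inl hx, Or.inl hy⟩
  · exact Or.inl ⟨_, div_pos hx hD, dec1 hD hy⟩
  · exact absurd hf0 (fl_last h j (div_pos hy hD) (dec2 hD hx)).2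
  · rw [dec1 hD hy, hx] at hy'
    simp [cr] at hy'

theorem ray2 (h : 0 < ar v) (j : Fin 3) {u : ℂ} (hf : Fl v (v j) u (-(I * u))) :
    (∃ c : ℝ, 0 < c ∧ u = c * (v (j + 2) - v j)) ∨ Fl v (v j) u (I * u) := by
  have hf0 := hf
  rw [fl_vertex h] at hf ⊢
  have hD : 0 < cr (v (j + 1) - v j) (v (j + 2) - v j) := by rwa [ar_eq]
  obtain ⟨hx | ⟨hx, hx'⟩, hy | ⟨hy, hy'⟩⟩ := hf
  · exact Or.inr ⟨Or.inl hx, Or.inl hy⟩
  · exact absurd hf0 (fl_first h j (div_pos hx hD) (dec1 hD hy)).2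
  · exact Or.inl ⟨_, div_pos hy hD, dec2 hD hx⟩
  · rw [dec1 hD hy, hx] at hy'
    simp [cr] at hy'

theorem lam_side1 (v : Fin 3 → ℂ) (j : Fin 3) {c : ℝ} {p : ℂ}
    (hp : p - v j = c * (v (j + 1) - v j)) :
    lam v j p = (1 - c) * ar v ∧ lam v (j + 1) p = c * ar v ∧ lam v (j + 2) p = 0 := by
  obtain rfl : p = v j + c * (v (j + 1) - v j) := by rw [← hp]; ring
  rw [← ar_eq v j]
  refine ⟨?_, ?_, ?_⟩ <;> simp [lam, cr] <;> ring

theorem lam_side2 (v : Fin 3 → ℂ) (j : Fin 3) {c : ℝ} {p : ℂ}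
    (hp : p - v j = c * (v (j + 2) - v j)) :
    lam v j p = (1 - c) * ar v ∧ lam v (j + 1) p = 0 ∧ lam v (j + 2) p = c * ar v := by
  obtain rfl : p = v j + c * (v (j + 2) - v j) := by rw [← hp]; ring
  rw [← ar_eq v j]
  refine ⟨?_, ?_, ?_⟩ <;> simp [lam, cr] <;> ring

theorem edge_side1 (h : 0 < ar v) (j : Fin 3) {c : ℝ} {p : ℂ} (h0 : 0 < c) (h1 : c < 1)
    (hp : p - v j = c * (v (j + 1) - v j)) : Edge v p := by
  obtain ⟨a, b, d⟩ := lam_side1 v j hp
  refine ⟨j + 2, d, ?_, ?_⟩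
  · rw [a21, a]; exact mul_pos (by linarith) h
  · rw [a22, b]; exact mul_pos h0 h

theorem edge_side2 (h : 0 < ar v) (j : Fin 3) {c : ℝ} {p : ℂ} (h0 : 0 < c) (h1 : c < 1)
    (hp : p - v j = c * (v (j + 2) - v j)) : Edge v p := by
  obtain ⟨a, b, d⟩ := lam_side2 v j hp
  refine ⟨j + 1, b, ?_, ?_⟩
  · rw [a11, d]; exact mul_pos h0 h
  · rw [a12, a]; exact mul_pos (by linarith) h

theorem not_inn_vertex (v : Fin 3 → ℂ) (j : Fin 3) : ¬ Inn v (v j) := fun h =>
  (h (j + 1)).ne' (lam_s1 v j)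

theorem not_edge_vertex (v : Fin 3 → ℂ) (j : Fin 3) : ¬ Edge v (v j) := by
  rintro ⟨k, -, h1, h2⟩
  rcases tri3 j k with rfl | rfl | rfl
  · exact h1.ne' (lam_s1 v _)
  · rw [a11] at h1; exact h1.ne' (lam_s2 v _)
  · rw [a22] at h2; exact h2.ne' (lam_s1 v _)

theorem Edge.not_inn {p : ℂ} (h : Edge v p) : ¬ Inn v p := fun h' => by
  obtain ⟨k, hk, -⟩ := h
  exact (h' k).ne' hk

theorem Out.not_edge {p : ℂ} (h : Out v p) : ¬ Edge v p := by
  obtain ⟨k, hk⟩ := h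
  rintro ⟨j, h0, h1, h2⟩
  rcases tri3 j k with rfl | rfl | rfl <;> linarith

theorem Out.not_inn {p : ℂ} (h : Out v p) : ¬ Inn v p := fun h' => h.not_fl 0 0 (h'.fl 0 0)

/-- The number of half turns at a point that is not a vertex. -/
noncomputable def exn (v : Fin 3 → ℂ) (p : ℂ) : ℕ := if Inn v p then 2 else if Edge v p then 1 else 0

theorem ang_split (h : 0 < ar v) (p : ℂ) :
    ang v p = ∑ j, (if v j = p then an v j else 0) + exn v p * π := by
  have hz : (¬ ∃ j, v j = p) → ∑ j, (if v j = p then an v j else 0) = 0 := fun hn =>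
    sum_eq_zero fun j _ => if_neg fun e => hn ⟨j, e⟩
  rcases cases4 h p with h1 | h1 | h1 | ⟨j, rfl⟩
  · rw [ang_out h1, exn, if_neg h1.not_inn, if_neg h1.not_edge, hz]
    · simp
    · rintro ⟨j, rfl⟩
      exact h1.not_fl _ _ (fl_first h j one_pos rfl).1
  · rw [ang_inn h1, exn, if_pos h1, hz]
    · simp
    · rintro ⟨j, rfl⟩
      exact not_inn_vertex v j h1
  · rw [ang_edge h h1, exn, if_neg h1.not_inn, if_pos h1, hz]
    · simp
    · rintro ⟨j, rfl⟩
      exact not_edge_vertex v j h1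
  · rw [ang_vertex h, exn, if_neg (not_inn_vertex v j), if_neg (not_edge_vertex v j),
      sum_eq_single j (fun k _ e => if_neg fun e' => e (inj_of h.ne' e')) (by simp)]
    simp

end one

/-- The corners of pieces at `p`. -/
noncomputable def inc (s : Fin 5 → Fin 3 → ℂ) (p : ℂ) : Finset (Fin 5 × Fin 3) :=
  univ.filter fun x => s x.1 x.2 = p

noncomputable def asum (s : Fin 5 → Fin 3 → ℂ) (p : ℂ) : ℝ := ∑ x ∈ inc s p, an (s x.1) x.2

noncomputable def nx (s : Fin 5 → Fin 3 → ℂ) (p : ℂ) : ℕ := ∑ m, exn (s m) p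

theorem mem_inc {s : Fin 5 → Fin 3 → ℂ} {p : ℂ} {x : Fin 5 × Fin 3} :
    x ∈ inc s p ↔ s x.1 x.2 = p := by simp [inc]

variable {t : Fin 3 → ℂ} {s : Fin 5 → Fin 3 → ℂ}

theorem Part.loc (h : Part t s) (p : ℂ) : ang t p = asum s p + nx s p * π := by
  rw [h.ang_sum, asum, inc, sum_filter, Fintype.sum_prod_type, nx, Nat.cast_sum, sum_mul,
    ← sum_add_distrib]
  exact sum_congr rfl fun m _ => ang_split (h.ps m) p

theorem Part.asum_pos (h : Part t s) (m : Fin 5) (i : Fin 3) : 0 < asum s (s m i) :=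
  sum_pos (fun _ _ => an_pos (h.ps _) _) ⟨(m, i), mem_inc.2 rfl⟩

theorem Part.asum_nonneg (h : Part t s) (p : ℂ) : 0 ≤ asum s p :=
  sum_nonneg fun _ _ => (an_pos (h.ps _) _).le

theorem nx_pos {p : ℂ} {m : Fin 5} (h : Edge (s m) p ∨ Inn (s m) p) : 1 ≤ nx s p := by
  refine le_trans ?_ (single_le_sum (f := fun m => exn (s m) p) (fun _ _ => Nat.zero_le _)
    (mem_univ m))
  unfold exn
  split_ifs <;> simp_all

theorem Part.fl_inc (h : Part t s) {p u w : ℂ} (hn : nx s p = 0) (huw : cr u w ≠ 0)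
    (hf : Fl t p u w) : ∃ m i, s m i = p ∧ Fl (s m) p u w := by
  obtain ⟨m, hm⟩ := (h.cov p u w huw).1 hf
  rcases cases4 (h.ps m) p with h1 | h1 | h1 | ⟨j, hj⟩
  · exact absurd hm (h1.not_fl _ _)
  · have := nx_pos (Or.inr h1); omega
  · have := nx_pos (Or.inl h1); omega
  · exact ⟨m, j, hj, hm⟩

theorem Part.not_out (h : Part t s) (m : Fin 5) (i : Fin 3) : ¬ Out t (s m i) := fun ho =>
  ho.not_fl _ _ ((h.cov _ _ _ (cr_I_ne (side1_ne (h.ps m) i))).2
    ⟨m, (fl_first (h.ps m) i one_pos (by simp)).1⟩)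

theorem Part.corner (h : Part t s) (j : Fin 3) : asum s (t j) = an t j ∧ nx s (t j) = 0 := by
  have h1 := h.loc (t j)
  have h2 := h.asum_nonneg (t j)
  have h3 := an_lt h.pt j
  rw [ang_vertex h.pt] at h1
  rcases Nat.eq_zero_or_pos (nx s (t j)) with e | e
  · rw [e] at h1
    exact ⟨by simpa using h1.symm, e⟩
  · have : (1 : ℝ) ≤ nx s (t j) := by exact_mod_cast e
    nlinarith [pi_pos]

theorem Part.bdry (h : Part t s) {m : Fin 5} {i : Fin 3} (he : Edge t (s m i)) :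
    asum s (s m i) = π ∧ nx s (s m i) = 0 := by
  have h1 := h.loc (s m i)
  have h2 := h.asum_pos m i
  rw [ang_edge h.pt he] at h1
  rcases Nat.eq_zero_or_pos (nx s (s m i)) with e | e
  · rw [e] at h1
    exact ⟨by simpa using h1.symm, e⟩
  · have : (1 : ℝ) ≤ nx s (s m i) := by exact_mod_cast e
    nlinarith [pi_pos]

theorem Part.inner (h : Part t s) {m : Fin 5} {i : Fin 3} (he : Inn t (s m i)) :
    (asum s (s m i) = 2 * π ∧ nx s (s m i) = 0) ∨ (asum s (s m i) = π ∧ nx s (s m i) = 1) := by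
  have h1 := h.loc (s m i)
  have h2 := h.asum_pos m i
  rw [ang_inn he] at h1
  rcases Nat.lt_or_ge (nx s (s m i)) 2 with e | e
  · rcases (show nx s (s m i) = 0 ∨ nx s (s m i) = 1 by omega) with e | e <;> rw [e] at h1
    · exact Or.inl ⟨by simpa using h1.symm, e⟩
    · exact Or.inr ⟨by push_cast at h1; linarith, e⟩
  · have : (2 : ℝ) ≤ nx s (s m i) := by exact_mod_cast e
    nlinarith [pi_pos]

theorem Part.first_uniq (h : Part t s) {m m' : Fin 5} {i i' : Fin 3} {c : ℝ} (hc : 0 < c)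
    (e : s m i = s m' i') (e' : s m (i + 1) - s m i = c * (s m' (i' + 1) - s m' i')) : m = m' :=
  h.dis _ _ _ _ _ (cr_I_ne (side1_ne (h.ps m) i)) (fl_first (h.ps m) i one_pos (by simp)).1
    (e ▸ (fl_first (h.ps m') i' hc e').1)

theorem Part.last_uniq (h : Part t s) {m m' : Fin 5} {i i' : Fin 3} {c : ℝ} (hc : 0 < c)
    (e : s m i = s m' i') (e' : s m (i + 2) - s m i = c * (s m' (i' + 2) - s m' i')) : m = m' :=
  h.dis _ _ _ _ _ (cr_nI_ne (side2_ne (h.ps m) i)) (fl_last (h.ps m) i one_pos (by simp)).1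
    (e ▸ (fl_last (h.ps m') i' hc e').1)

theorem inv_ray {a u : ℂ} {c : ℝ} (hc : 0 < c) (h : u = c * a) : a = (c⁻¹ : ℝ) * u := by
  have : (c : ℂ) ≠ 0 := by exact_mod_cast hc.ne'
  rw [h]; push_cast; field_simp

theorem Part.corner1 (h : Part t s) (j : Fin 3) : ∃ m i, s m i = t j ∧ ∃ x : ℝ, 0 < x ∧ x ≤ 1 ∧
    s m (i + 1) - t j = x * (t (j + 1) - t j) := by
  have hu := side1_ne h.pt j
  have h1 := fl_first h.pt j one_pos (u := t (j + 1) - t j) (by simp)
  obtain ⟨m, i, e, hf⟩ := h.fl_inc (h.corner j).2 (cr_I_ne hu) h1.1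
  rw [← e] at hf
  rcases ray1 (h.ps m) i hf with ⟨c, hc, hu'⟩ | h2
  · have h3 := inv_ray hc hu'
    rw [e] at h3
    refine ⟨m, i, e, c⁻¹, inv_pos.2 hc, ?_, h3⟩
    by_contra hlt
    exact h.not_out m (i + 1) ⟨j, by
      rw [(lam_side1 t j h3).1]; exact mul_neg_of_neg_of_pos (by linarith) h.pt⟩
  · rw [e] at h2
    exact absurd ((h.cov _ _ _ (cr_nI_ne hu)).2 ⟨m, h2⟩) h1.2

theorem Part.corner2 (h : Part t s) (j : Fin 3) : ∃ m i, s m i = t j ∧ ∃ x : ℝ, 0 < x ∧ x ≤ 1 ∧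
    s m (i + 2) - t j = x * (t (j + 2) - t j) := by
  have hu := side2_ne h.pt j
  have h1 := fl_last h.pt j one_pos (u := t (j + 2) - t j) (by simp)
  obtain ⟨m, i, e, hf⟩ := h.fl_inc (h.corner j).2 (cr_nI_ne hu) h1.1
  rw [← e] at hf
  rcases ray2 (h.ps m) i hf with ⟨c, hc, hu'⟩ | h2
  · have h3 := inv_ray hc hu'
    rw [e] at h3
    refine ⟨m, i, e, c⁻¹, inv_pos.2 hc, ?_, h3⟩
    by_contra hlt
    exact h.not_out m (i + 2) ⟨j, by
      rw [(lam_side2 t j h3).1]; exact mul_neg_of_neg_of_pos (by linarith) h.pt⟩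
  · rw [e] at h2
    exact absurd ((h.cov _ _ _ (cr_I_ne hu)).2 ⟨m, h2⟩) h1.2

theorem Part.next (h : Part t s) {m : Fin 5} {i : Fin 3} (hi : Inn t (s m i))
    (hn : nx s (s m i) = 0) : ∃ m' i', s m' i' = s m i ∧ m' ≠ m ∧ ∃ c : ℝ, 0 < c ∧
      s m (i + 2) - s m i = c * (s m' (i' + 1) - s m' i') := by
  have hu := side2_ne (h.ps m) i
  have h1 := fl_last (h.ps m) i one_pos (u := s m (i + 2) - s m i) (by simp)
  obtain ⟨m', i', e, hf⟩ := h.fl_inc hn (cr_I_ne hu) (hi.fl _ _)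
  have hne : m' ≠ m := by
    rintro rfl
    exact h1.2 hf
  refine ⟨m', i', e, hne, ?_⟩
  have hf' : Fl (s m') (s m' i') (s m (i + 2) - s m i) (I * (s m (i + 2) - s m i)) := by
    rwa [e]
  rcases ray1 (h.ps m') i' hf' with h2 | h2
  · exact h2
  · rw [e] at h2
    exact absurd (h.dis _ _ _ _ _ (cr_nI_ne hu) h2 h1.1) hne

/-- A directed edge on the boundary line `k` has the interior of `t` on its left. -/
theorem Part.bd_dir (h : Part t s) {m : Fin 5} {i k : Fin 3} (h0 : lam t k (s m i) = 0)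
    (h1 : lam t k (s m (i + 1)) = 0) : 0 < dl t k (I * (s m (i + 1) - s m i)) := by
  have h2 := (h.cov _ _ _ (cr_I_ne (side1_ne (h.ps m) i))).2
    ⟨m, (fl_first (h.ps m) i one_pos (by simp)).1⟩ k
  have h3 := lam_add t k (s m i) (s m (i + 1) - s m i)
  rw [add_sub_cancel, h0, h1] at h3
  rcases h2 with h2 | ⟨-, h2 | ⟨-, h2⟩⟩
  · linarith
  · linarith
  · exact h2

/-- The piece `m` has the directed edge from `p` to `q`. -/
def De (s : Fin 5 → Fin 3 → ℂ) (m : Fin 5) (p q : ℂ) : Prop := ∃ i, s m i = p ∧ s m (i + 1) = q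

theorem de_or {m : Fin 5} {i i' : Fin 3} {p q : ℂ} (hpq : p ≠ q) (hp : s m i = p)
    (hq : s m i' = q) : De s m p q ∨ De s m q p := by
  rcases tri3 i i' with rfl | rfl | rfl
  · exact absurd (hp.symm.trans hq) hpq
  · exact Or.inl ⟨i, hp, hq⟩
  · exact Or.inr ⟨i + 2, hq, by rwa [a21]⟩

theorem Part.de_uniq (h : Part t s) {m m' : Fin 5} {p q : ℂ} (h1 : De s m p q) (h2 : De s m' p q) :
    m = m' := by
  obtain ⟨i, a, b⟩ := h1
  obtain ⟨i', a', b'⟩ := h2
  exact h.first_uniq one_pos (a.trans a'.symm) (by rw [a, b, a', b']; simp)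

theorem Part.de_bd (h : Part t s) {m m' : Fin 5} {p q : ℂ} {k : Fin 3} (hp : lam t k p = 0)
    (hq : lam t k q = 0) (h1 : De s m p q) (h2 : De s m' q p) : False := by
  obtain ⟨i, a, b⟩ := h1
  obtain ⟨i', a', b'⟩ := h2
  have h3 := h.bd_dir (a ▸ hp) (b ▸ hq)
  have h4 := h.bd_dir (a' ▸ hq) (b' ▸ hp)
  rw [a, b] at h3
  rw [a', b', show I * (p - q) = -(I * (q - p)) by ring, dl_neg] at h4
  linarith

theorem Part.not_all (h : Part t s) {m : Fin 5} {i j : Fin 3} (h0 : s m i = t j)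
    (h1 : s m (i + 1) = t (j + 1)) (h2 : s m (i + 2) = t (j + 2)) : False := by
  obtain ⟨m', hm'⟩ := exists_ne m
  have hu := cr_I_ne (side1_ne (h.ps m') 0)
  have h3 := (fl_first (h.ps m') 0 one_pos (u := s m' (0 + 1) - s m' 0) (by simp)).1
  have h4 := (h.cov _ _ _ hu).2 ⟨m', h3⟩
  refine hm' (h.dis _ _ _ _ _ hu h3 ?_)
  rw [Fl, all3 j] at h4
  rw [Fl, all3 i]
  simpa only [lam, dl, a11, a12, a21, a22, h0, h1, h2] using h4

end Pool.Agent.P.MP_70ee84_co

end
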