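import Pool.Agent.P.MP_70ee84_co.Comb

set_option autoImplicit false

section

/-! The shape of the dissection. -/

open Complex Real Finset
open scoped Classical

namespace Pool.Agent.P.MP_70ee84_co

variable {A : Fin 3 → ℝ} {t : Fin 3 → ℂ} {s : Fin 5 → Fin 3 → ℂ}

theorem Ord.apex {a l r : ℝ} (h : Ord A a l r) (h0 : A 0 = π / 6) (h1 : A 1 = π / 6)
    (ha : a = 2 * π / 3) : l = π / 6 ∧ r = π / 6 := by
  have := pi_pos
  rcases h with ⟨b, -⟩ | ⟨b, -⟩ | ⟨-, ⟨b, c⟩ | ⟨b, c⟩⟩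
  · linarith
  · linarith
  · exact ⟨b.trans h0, c.trans h1⟩
  · exact ⟨b.trans h1, c.trans h0⟩

theorem cyc3 {C P Q a b c : ℂ} (h1 : a = C ∨ a = P ∨ a = Q) (h2 : b = C ∨ b = P ∨ b = Q)
    (h3 : c = C ∨ c = P ∨ c = Q) (n1 : C ≠ a) (n2 : P ≠ b) (n3 : Q ≠ c) (n4 : a ≠ b) (n5 : a ≠ c)
    (n6 : b ≠ c) : (a = P ∧ b = Q ∧ c = C) ∨ (a = Q ∧ b = C ∧ c = P) := by
  grind

theorem set1 (a b c : ℂ) : ({c, a, b} : Set ℂ) = {a, b, c} := by grind
theorem set2 (a b c : ℂ) : ({c, b, a} : Set ℂ) = {a, b, c} := by grind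

theorem inj5 {a b c d e : Fin 5} (h1 : a ≠ b) (h2 : a ≠ c) (h3 : a ≠ d) (h4 : a ≠ e) (h5 : b ≠ c)
    (h6 : b ≠ d) (h7 : b ≠ e) (h8 : c ≠ d) (h9 : c ≠ e) (h10 : d ≠ e) :
    Function.Injective ![a, b, c, d, e] := List.nodup_ofFn.1 (by simp [*])

theorem Dis.core (h : Dis A t s) : ∃ (j : Fin 3) (P Q W : ℂ) (e : Fin 5 → Fin 5),
    an t j = 2 * π / 3 ∧ an t (j + 1) = π / 6 ∧ an t (j + 2) = π / 6 ∧
    P = (2 * t (j + 1) + t (j + 2)) / 3 ∧ Q = (t (j + 1) + 2 * t (j + 2)) / 3 ∧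
    W = (t (j + 1) + t (j + 2) + t j) / 3 ∧ Function.Injective e ∧
    Set.range (s (e 0)) = {t (j + 1), P, t j} ∧ Set.range (s (e 1)) = {t (j + 2), Q, t j} ∧
    Set.range (s (e 2)) = {P, Q, W} ∧ Set.range (s (e 3)) = {Q, t j, W} ∧
    Set.range (s (e 4)) = {t j, P, W} := by
  have pi0 := pi_pos
  obtain ⟨j0, hj0⟩ : ∃ j, an t j = A 0 := by
    rcases h.ot 0 with ⟨a, -⟩ | ⟨-, ⟨a, -⟩ | ⟨-, a⟩⟩ | ⟨-, ⟨a, -⟩ | ⟨-, a⟩⟩ <;> exact ⟨_, a⟩
  obtain ⟨m0, i0, x0, y0, u0⟩ := h.uns (h.min_uns hj0)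
  obtain ⟨W, hF⟩ := card_eq_one.1 (h.cards u0).2
  have hW : W ∈ FF t s := by simp [hF]
  obtain ⟨w1, w2, -⟩ := h.full hW
  have h3 : (pcs s W).card = 3 := by
    have a := h.not_deg4 u0 hj0 hF
    have b := card_miss (u0.notMem (w1 _) (w1 _))
    have c := h.deg3 (Or.inr w2)
    omega
  obtain ⟨a0, a1, a2, aW⟩ := h.angles u0 hW h3
  obtain ⟨j, hj⟩ : ∃ j, an t j = A 2 := by
    rcases h.ot 0 with ⟨-, ⟨-, a⟩ | ⟨a, -⟩⟩ | ⟨-, ⟨-, a⟩ | ⟨a, -⟩⟩ | ⟨a, -⟩ <;> exact ⟨_, a⟩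
  rw [a2] at hj
  obtain ⟨hA, hB⟩ := Ord.apex (h.ot j) a0 a1 hj
  obtain ⟨mA, iA, x, y, uA⟩ := h.uns (h.min_uns (hA.trans a0.symm))
  obtain ⟨mB, iB, x', y', uB⟩ := h.uns (h.min_uns (hB.trans a0.symm))
  obtain ⟨x1, y1, hAB⟩ := h.adj uA (by rwa [a11])
  have eP := edge_side1 h.pt _ uA.x0 x1 uA.v1
  have eQ := edge_side2 h.pt _ uB.y0 y1 uB.v2
  have nA := uA.notMem (w1 _) (w1 _)
  have nB := uB.notMem (w1 _) (w1 _)
  have mT : ∀ z ∈ inc s W, ∀ k, k ≠ z.2 → s z.1 k ∈ insert (t j) (HH t s) := by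
    intro z hz k hk
    have hz' : z.1 ∈ pcs s W := mem_pcs.2 ⟨_, mem_inc.1 hz⟩
    rcases vert t s z.1 k with ⟨l, hl⟩ | hn
    · rcases tri3 j l with rfl | rfl | rfl
      · exact mem_insert.2 (Or.inl hl.symm)
      · exact absurd ((uA.un _ _ hl.symm).1 ▸ hz') nA
      · exact absurd ((uB.un _ _ hl.symm).1 ▸ hz') nB
    · by_cases hc : asum s (s z.1 k) = π
      · exact mem_insert_of_mem (mem_filter.2 ⟨hn, hc⟩)
      · have : s z.1 k ∈ FF t s := mem_filter.2 ⟨hn, hc⟩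
        rw [hF, mem_singleton, ← mem_inc.1 hz] at this
        exact absurd (h.idx this) hk
  have sur : ∀ p ∈ insert (t j) (HH t s), ∃ z ∈ inc s W, s z.1 (z.2 + 1) = p := fun p hp => by
    obtain ⟨z, hz, e⟩ := surjOn_of_injOn_of_card_le (s := inc s W) (t := insert (t j) (HH t s))
      (fun z => s z.1 (z.2 + 1)) (fun z hz => mem_coe.2 (mT z (mem_coe.1 hz) _ (ne1 _))) (h.inj1 W)
      (by rw [card_insert_of_notMem fun hc => HH_ne_t hc j rfl, (h.cards u0).1, ← h.card_pcs, h3])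
      (mem_coe.2 hp)
    exact ⟨z, mem_coe.1 hz, e⟩
  obtain ⟨zC, hzC, fC⟩ := sur _ (mem_insert_self _ _)
  have bW := fun (z : Fin 5 × Fin 3) hz => Ord.apex (h.os z.1 z.2) a0 a1 (aW z hz)
  have cC := (h.corner j).1
  rw [hj, asum] at cC
  have aC : ∀ z ∈ inc s (t j), an (s z.1) z.2 = π / 6 := fun z hz => by
    rcases h.val z.1 z.2 with a | a | a
    · exact a.trans a0
    · exact a.trans a1
    · have b := (bW zC hzC).1
      have := add_le_sum (f := fun z : Fin 5 × Fin 3 => an (s z.1) z.2)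
        (fun z _ => (an_pos (h.ps _) _).le) hz (mem_inc.2 fC : (zC.1, zC.2 + 1) ∈ _)
        (by rintro rfl; linarith)
      linarith
  have dC : (pcs s (t j)).card = 4 := by
    rw [sum_congr rfl aC, sum_const, nsmul_eq_mul, ← h.card_pcs] at cC
    have : ((pcs s (t j)).card : ℝ) = 4 :=
      mul_right_cancel₀ (b := π / 6) (by positivity) (by linarith)
    exact_mod_cast this
  have mC : ∀ a, a ∉ pcs s W → a ∈ pcs s (t j) := fun a ha => by_contra fun hc => by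
    have b := card_miss (S := pcs s (t j) ∪ pcs s W) (a := a) (by simp [ha, hc])
    have c := card_union_add_card_inter (pcs s (t j)) (pcs s W)
    have d := h.two ((mem_Nn.1 (mem_filter.1 hW).1).2 j)
    omega
  have vA : s mA (iA + 2) = t j := by
    obtain ⟨k, hk⟩ := mem_pcs.1 (mC _ nA)
    rcases tri3 iA k with rfl | rfl | rfl
    · exact absurd (inj_of h.pt.ne' (uA.v0.symm.trans hk)) (ne1 j)
    · exact absurd (hk ▸ eP) (not_edge_vertex _ _)
    · exact hk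
  have vB : s mB (iB + 1) = t j := by
    obtain ⟨k, hk⟩ := mem_pcs.1 (mC _ nB)
    rcases tri3 iB k with rfl | rfl | rfl
    · exact absurd (inj_of h.pt.ne' (uB.v0.symm.trans hk)) (ne2 j)
    · exact hk
    · exact absurd (hk ▸ eQ) (not_edge_vertex _ _)
  have bA : an (s mA) (iA + 2) = π / 6 := aC (mA, iA + 2) (mem_inc.2 vA)
  have bB : an (s mB) (iB + 1) = π / 6 := aC (mB, iB + 1) (mem_inc.2 vB)
  have rt := rot h.pt j (hA.trans hB.symm)
  have rA := rot (h.ps mA) (iA + 1) (by rw [a11, a12, bA, uA.an, hA])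
  have rB := rot (h.ps mB) (iB + 2) (by rw [a21, a22, bB, uB.an, hB])
  rw [a11, a12, vA, uA.v0, show an (s mA) (iA + 1) = 2 * π / 3 by
    linarith [an_sum (h.ps mA) iA, uA.an]] at rA
  rw [a21, a22, vB, uB.v0, show an (s mB) (iB + 2) = 2 * π / 3 by
    linarith [an_sum (h.ps mB) iB, uB.an]] at rB
  have rW := fun (z : Fin 5 × Fin 3) hz => rot (h.ps z.1) z.2 ((bW z hz).1.trans (bW z hz).2.symm)
  rw [hj] at rt
  have o := om
  have o1 : ee (2 * π / 3) - 1 ≠ 0 := fun e => by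
    rw [sub_eq_zero.1 e] at o
    norm_num at o
  have hP : s mA (iA + 1) = (2 * t (j + 1) + t (j + 2)) / 3 :=
    mul_left_cancel₀ o1 (by
      linear_combination rA - (ee (2 * π / 3) - 1) / 3 * rt - (t (j + 1) - t j) / 3 * o)
  have hQ : s mB (iB + 2) = (t (j + 1) + 2 * t (j + 2)) / 3 :=
    mul_left_cancel₀ o1 (by
      linear_combination rB + (ee (2 * π / 3) + 2) / 3 * rt + (t (j + 1) - t j) / 3 * o)
  have hPQ : s mA (iA + 1) ≠ s mB (iB + 2) := fun e => ne12 j (inj_of h.pt.ne' (by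
    rw [hP, hQ] at e; linear_combination 3 * e))
  have mP := h.edge_mem eP
  have mQ := h.edge_mem eQ
  have hH : HH t s = {s mA (iA + 1), s mB (iB + 2)} :=
    (eq_of_subset_of_card_le (by simp [insert_subset_iff, mP, mQ])
      (by rw [(h.cards u0).1, card_pair hPQ])).symm
  obtain ⟨zP, hzP, fP⟩ := sur _ (mem_insert_of_mem mP)
  obtain ⟨zQ, hzQ, fQ⟩ := sur _ (mem_insert_of_mem mQ)
  have rA' := range_eq (s mA) iA
  have rB' := range_eq (s mB) iB
  rw [uA.v0, vA] at rA'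
  rw [uB.v0, vB, Set.pair_comm] at rB'
  generalize s mA (iA + 1) = P at *
  generalize s mB (iB + 2) = Q at *
  have nP := HH_ne_t mP j
  have nQ := HH_ne_t mQ j
  have g : ∀ z ∈ inc s W, (s z.1 (z.2 + 2) = t j ∨ s z.1 (z.2 + 2) = P ∨ s z.1 (z.2 + 2) = Q) ∧
      s z.1 (z.2 + 1) ≠ s z.1 (z.2 + 2) ∧ s z.1 (z.2 + 2) - W = ee (2 * π / 3) *
        (s z.1 (z.2 + 1) - W) ∧ Set.range (s z.1) = {W, s z.1 (z.2 + 1), s z.1 (z.2 + 2)} ∧
      mA ≠ z.1 ∧ mB ≠ z.1 := fun z hz => by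
    have hz' : z.1 ∈ pcs s W := mem_pcs.2 ⟨_, mem_inc.1 hz⟩
    refine ⟨by simpa [hH] using mT z hz _ (ne2 _), fun e => ne12 _ (h.idx e), ?_, ?_,
      fun e => nA (e ▸ hz'), fun e => nB (e ▸ hz')⟩
    · have := rW z hz
      rwa [aW z hz, mem_inc.1 hz] at this
    · rw [range_eq _ z.2, mem_inc.1 hz]
  have g' : ∀ z ∈ inc s W, ∀ z' ∈ inc s W, s z.1 (z.2 + 1) ≠ s z'.1 (z'.2 + 1) →
      s z.1 (z.2 + 2) ≠ s z'.1 (z'.2 + 2) ∧ z.1 ≠ z'.1 := fun z hz z' hz' hne =>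
    ⟨fun e => hne (by rw [h.inj2 W hz hz' e]), fun e => hne (by
      rw [Prod.ext e (h.idx ((mem_inc.1 hz).trans (by rw [e, mem_inc.1 hz'])))])⟩
  obtain ⟨c1, c2, c3, c4, c5, c6⟩ := g zC hzC
  obtain ⟨p1, p2, p3, p4, p5, p6⟩ := g zP hzP
  obtain ⟨q1, q2, q3, q4, q5, q6⟩ := g zQ hzQ
  obtain ⟨n1, n2⟩ := g' zC hzC zP hzP (by rwa [fC, fP])
  obtain ⟨n3, n4⟩ := g' zC hzC zQ hzQ (by rwa [fC, fQ])
  obtain ⟨n5, n6⟩ := g' zP hzP zQ hzQ (by rwa [fP, fQ])
  rw [fC] at c2 c3 c4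
  rw [fP] at p2 p3 p4
  rw [fQ] at q2 q3 q4
  rcases cyc3 c1 p1 q1 c2 p2 q2 n1 n3 n5 with ⟨b1, b2, b3⟩ | ⟨b1, b2, b3⟩ <;> rw [b1] at c3 c4 <;>
    rw [b2] at p3 p4 <;> rw [b3] at q3 q4
  · exact ⟨j, P, Q, W, ![mA, mB, zP.1, zQ.1, zC.1], hj, hA, hB, hP, hQ, mul_left_cancel₀ o1 (by
      linear_combination (c3 + p3 + q3) / 3 + (ee (2 * π / 3) - 1) / 3 * (hP + hQ)),
      inj5 hAB p5 q5 c5 p6 q6 c6 n6 n2.symm n4.symm, rA', rB', p4.trans (set1 _ _ _),
      q4.trans (set1 _ _ _), c4.trans (set1 _ _ _)⟩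
  · exact ⟨j, P, Q, W, ![mA, mB, zQ.1, zC.1, zP.1], hj, hA, hB, hP, hQ, mul_left_cancel₀ o1 (by
      linear_combination (c3 + p3 + q3) / 3 + (ee (2 * π / 3) - 1) / 3 * (hP + hQ)),
      inj5 hAB q5 c5 p5 q6 c6 p6 n4.symm n6.symm n2, rA', rB', q4.trans (set2 _ _ _),
      c4.trans (set2 _ _ _), p4.trans (set2 _ _ _)⟩

end Pool.Agent.P.MP_70ee84_co

end

section

/-! The five triangles do dissect the triangle with angles `π / 6`, `π / 6`, `2 π / 3`. -/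

open Complex Real EuclideanGeometry Filter Topology

namespace Pool.Agent.P.MP_70ee84_co

theorem mem3 {p q r z : ℂ} : z ∈ convexHull ℝ ({p, q, r} : Set ℂ) ↔
    ∃ a b c : ℝ, 0 ≤ a ∧ 0 ≤ b ∧ 0 ≤ c ∧ a + b + c = 1 ∧ z = a * p + b * q + c * r := by
  constructor
  · intro hz
    refine convexHull_min (t := {z | ∃ a b c : ℝ, 0 ≤ a ∧ 0 ≤ b ∧ 0 ≤ c ∧ a + b + c = 1 ∧
      z = a * p + b * q + c * r}) ?_ ?_ hz
    · rintro _ (rfl | rfl | rfl)
      · exact ⟨1, 0, 0, by simp⟩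
      · exact ⟨0, 1, 0, by simp⟩
      · exact ⟨0, 0, 1, by simp⟩
    · rintro _ ⟨a, b, c, ha, hb, hc, h, rfl⟩ _ ⟨a', b', c', ha', hb', hc', h', rfl⟩ x y hx hy e
      refine ⟨x * a + y * a', x * b + y * b', x * c + y * c', by positivity, by positivity,
        by positivity, by linear_combination x * h + y * h' + e, ?_⟩
      simp only [real_smul]
      push_cast
      ring
  · rintro ⟨a, b, c, ha, hb, hc, h, rfl⟩
    have := (convex_convexHull ℝ ({p, q, r} : Set ℂ)).sum_mem (t := Finset.univ) (w := ![a, b, c])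
      (z := ![p, q, r]) (fun k _ => by fin_cases k <;> simpa) (by simpa [Fin.sum_univ_three])
      fun k _ => subset_convexHull _ _ (by fin_cases k <;> simp)
    simpa [Fin.sum_univ_three] using this

/-- Affine coordinates. -/
def pt (A B C : ℂ) (x y : ℝ) : ℂ := C + x * (A - C) + y * (B - C)

variable {A B C : ℂ} {x1 y1 x2 y2 x3 y3 x4 y4 x5 y5 x6 y6 : ℝ}

theorem mem_tr {z : ℂ} :
    z ∈ convexHull ℝ ({pt A B C x1 y1, pt A B C x2 y2, pt A B C x3 y3} : Set ℂ) ↔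
    ∃ a b c : ℝ, 0 ≤ a ∧ 0 ≤ b ∧ 0 ≤ c ∧ a + b + c = 1 ∧
      z = pt A B C (a * x1 + b * x2 + c * x3) (a * y1 + b * y2 + c * y3) := by
  rw [mem3]
  refine exists₃_congr fun a b c => and_congr_right' (and_congr_right' (and_congr_right'
    (and_congr_right fun h => Eq.congr_right ?_)))
  obtain rfl : c = 1 - a - b := by linarith
  simp only [pt]
  push_cast
  ring

theorem pt_inj (hD : cr (A - C) (B - C) ≠ 0) (h : pt A B C x1 y1 = pt A B C x2 y2) :
    x1 = x2 ∧ y1 = y2 := by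
  have h1 := congrArg re h
  have h2 := congrArg im h
  simp only [pt, add_re, add_im, mul_re, mul_im, ofReal_re, ofReal_im] at h1 h2
  constructor <;> refine mul_left_cancel₀ hD ?_ <;> simp only [cr]
  · linear_combination (B - C).im * h1 - (B - C).re * h2
  · linear_combination (A - C).re * h2 - (A - C).im * h1

theorem sep (hD : cr (A - C) (B - C) ≠ 0) (a b c : ℝ)
    (h : 0 < a ^ 2 + b ^ 2 ∧ 0 ≤ a * x1 + b * y1 + c ∧ 0 ≤ a * x2 + b * y2 + c ∧
      0 ≤ a * x3 + b * y3 + c ∧ a * x4 + b * y4 + c ≤ 0 ∧ a * x5 + b * y5 + c ≤ 0 ∧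
      a * x6 + b * y6 + c ≤ 0) :
    Disjoint (interior (convexHull ℝ ({pt A B C x1 y1, pt A B C x2 y2, pt A B C x3 y3} : Set ℂ)))
      (interior (convexHull ℝ ({pt A B C x4 y4, pt A B C x5 y5, pt A B C x6 y6} : Set ℂ))) := by
  obtain ⟨h0, h1, h2, h3, h4, h5, h6⟩ := h
  refine Set.disjoint_left.2 fun z z1 z2 => ?_
  obtain ⟨p, q, r, hp, hq, hr, e, hz⟩ := mem_tr.1 (interior_subset z1)
  have hc : Continuous fun ε : ℝ => z + ε * (a * (A - C) + b * (B - C)) := by fun_prop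
  have ev := (hc.tendsto' 0 z (by simp)).eventually (mem_interior_iff_mem_nhds.1 z2)
  obtain ⟨ε, h7, h8⟩ := ((ev.filter_mono nhdsWithin_le_nhds).and
    (self_mem_nhdsWithin (s := Set.Ioi (0 : ℝ)))).exists
  obtain ⟨p', q', r', hp', hq', hr', e', hz'⟩ := mem_tr.1 h7
  obtain ⟨e1, e2⟩ := pt_inj hD (x1 := p * x1 + q * x2 + r * x3 + ε * a)
    (y1 := p * y1 + q * y2 + r * y3 + ε * b) (by
      rw [← hz', hz]; simp only [pt]; push_cast; ring)
  have key : p * (a * x1 + b * y1 + c) + q * (a * x2 + b * y2 + c) + r * (a * x3 + b * y3 + c) +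
      ε * (a ^ 2 + b ^ 2) = p' * (a * x4 + b * y4 + c) + q' * (a * x5 + b * y5 + c) +
      r' * (a * x6 + b * y6 + c) := by
    linear_combination a * e1 + b * e2 + c * e - c * e'
  linarith [mul_nonneg hp h1, mul_nonneg hq h2, mul_nonneg hr h3, mul_pos h8 h0,
    mul_nonpos_of_nonneg_of_nonpos hp' h4, mul_nonpos_of_nonneg_of_nonpos hq' h5,
    mul_nonpos_of_nonneg_of_nonpos hr' h6]

theorem pw5 {a b c d e : Set ℂ} (h1 : Disjoint (interior a) (interior b))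
    (h2 : Disjoint (interior a) (interior c)) (h3 : Disjoint (interior a) (interior d))
    (h4 : Disjoint (interior a) (interior e)) (h5 : Disjoint (interior b) (interior c))
    (h6 : Disjoint (interior b) (interior d)) (h7 : Disjoint (interior b) (interior e))
    (h8 : Disjoint (interior c) (interior d)) (h9 : Disjoint (interior c) (interior e))
    (h10 : Disjoint (interior d) (interior e)) :
    Pairwise fun k l => Disjoint (interior (![a, b, c, d, e] k)) (interior (![a, b, c, d, e] l)) :=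
  (pairwise_disjoint_on fun k => interior (![a, b, c, d, e] k)).2
    (List.pairwise_ofFn.1 (by simp [*]))

theorem sim (h1 : dist B C = dist C A) (h2 : dist A B ^ 2 = 3 * dist C A ^ 2) (ρ : ℝ)
    (h : 0 < ρ ∧ (x1 - x2) ^ 2 - (x1 - x2) * (y1 - y2) + (y1 - y2) ^ 2 = 3 * ρ ∧
      (x2 - x3) ^ 2 - (x2 - x3) * (y2 - y3) + (y2 - y3) ^ 2 = ρ ∧
      (x3 - x1) ^ 2 - (x3 - x1) * (y3 - y1) + (y3 - y1) ^ 2 = ρ) :
    Similar ![pt A B C x1 y1, pt A B C x2 y2, pt A B C x3 y3] ![A, B, C] := by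
  have sq : ∀ u v : ℂ, dist u v ^ 2 = (u.re - v.re) ^ 2 + (u.im - v.im) ^ 2 := fun u v => by
    rw [Complex.dist_eq, Complex.sq_norm, normSq_apply, sub_re, sub_im]; ring
  have h1' : dist B C ^ 2 = dist C A ^ 2 := by rw [h1]
  have key : ∀ (x y x' y' : ℝ) (U V : ℂ), ((x - x') ^ 2 - (x - x') * (y - y') + (y - y') ^ 2) *
      dist C A ^ 2 = ρ * dist U V ^ 2 → dist (pt A B C x y) (pt A B C x' y') = √ρ * dist U V := by
    intro x y x' y' U V e
    refine (pow_left_inj₀ dist_nonneg (by positivity) two_ne_zero).1 ?_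
    rw [mul_pow, Real.sq_sqrt h.1.le, ← e]
    simp only [sq, pt, add_re, add_im, mul_re, mul_im, ofReal_re, ofReal_im, sub_re,
      sub_im] at h1' h2 ⊢
    linear_combination ((y - y') ^ 2 + (x - x') * (y - y')) * h1' - (x - x') * (y - y') * h2
  have d1 := key x1 y1 x2 y2 A B (by rw [h.2.1, h2]; ring)
  have d2 := key x2 y2 x3 y3 B C (by rw [h.2.2.1, h1])
  have d3 := key x3 y3 x1 y1 C A (by rw [h.2.2.2])
  refine similar_iff_exists_pos_pairwise_dist_eq.2 ⟨√ρ, Real.sqrt_pos.2 h.1, fun i j e => ?_⟩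
  fin_cases i <;> fin_cases j <;>
    first
    | exact absurd rfl e
    | exact d1
    | exact d2
    | exact d3
    | exact (dist_comm _ _).trans (d1.trans (congrArg _ (dist_comm _ _)))
    | exact (dist_comm _ _).trans (d2.trans (congrArg _ (dist_comm _ _)))
    | exact (dist_comm _ _).trans (d3.trans (congrArg _ (dist_comm _ _)))

theorem range3 (a b c : ℂ) : Set.range ![a, b, c] = {a, b, c} := range_eq _ 0

theorem conv (hD : cr (A - C) (B - C) ≠ 0) (h1 : ∠ C A B = π / 6) (h2 : ∠ A B C = π / 6)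
    (h3 : ∠ B C A = 2 * π / 3) {P Q W : ℂ} (hP : P = (2 * A + B) / 3) (hQ : Q = (A + 2 * B) / 3)
    (hW : W = (A + B + C) / 3) {T : Fin 5 → Set ℂ} (hT : T = ![convexHull ℝ {A, P, C},
      convexHull ℝ {B, Q, C}, convexHull ℝ {P, Q, W}, convexHull ℝ {Q, C, W},
      convexHull ℝ {C, P, W}]) :
    (∀ m, ∃ v : Fin 3 → ℂ, Similar v ![A, B, C] ∧ T m = convexHull ℝ (Set.range v)) ∧
      (Pairwise fun m m' => Disjoint (interior (T m)) (interior (T m'))) ∧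
      ⋃ m, T m = convexHull ℝ {A, B, C} := by
  have l1 := law_sin A B C
  have l2 := law_sin B C A
  rw [h1, h2, Real.sin_pi_div_six] at l1
  rw [h2, h3, show 2 * π / 3 = π - π / 3 by ring, Real.sin_pi_sub, Real.sin_pi_div_six,
    Real.sin_pi_div_three] at l2
  have e1 : dist B C = dist C A := by linarith
  have e2 : dist A B ^ 2 = 3 * dist C A ^ 2 := by
    rw [show dist A B = √3 * dist C A by linarith, mul_pow, Real.sq_sqrt (by norm_num)]
  have eT : T = ![convexHull ℝ {pt A B C 1 0, pt A B C (2 / 3) (1 / 3), pt A B C 0 0},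
      convexHull ℝ {pt A B C 0 1, pt A B C (1 / 3) (2 / 3), pt A B C 0 0},
      convexHull ℝ {pt A B C (2 / 3) (1 / 3), pt A B C (1 / 3) (2 / 3), pt A B C (1 / 3) (1 / 3)},
      convexHull ℝ {pt A B C (1 / 3) (2 / 3), pt A B C 0 0, pt A B C (1 / 3) (1 / 3)},
      convexHull ℝ {pt A B C 0 0, pt A B C (2 / 3) (1 / 3), pt A B C (1 / 3) (1 / 3)}] := by
    rw [hT, show pt A B C 1 0 = A by simp [pt], show pt A B C 0 1 = B by simp [pt],
      show pt A B C 0 0 = C by simp [pt],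
      show pt A B C (2 / 3) (1 / 3) = P by rw [hP, pt]; push_cast; ring,
      show pt A B C (1 / 3) (2 / 3) = Q by rw [hQ, pt]; push_cast; ring,
      show pt A B C (1 / 3) (1 / 3) = W by rw [hW, pt]; push_cast; ring]
  have eB : ({A, B, C} : Set ℂ) = {pt A B C 1 0, pt A B C 0 1, pt A B C 0 0} := by simp [pt]
  clear hT
  subst eT
  refine ⟨fun m => ?_, pw5 (sep hD 1 (-2) 0 (by norm_num)) (sep hD 1 (-2) 0 (by norm_num))
    (sep hD 1 (-2) 0 (by norm_num)) (sep hD 1 (-2) 0 (by norm_num)) (sep hD (-2) 1 0 (by norm_num))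
    (sep hD (-2) 1 0 (by norm_num)) (sep hD (-2) 1 0 (by norm_num))
    (sep hD 1 0 (-1 / 3) (by norm_num)) (sep hD 0 1 (-1 / 3) (by norm_num))
    (sep hD (-1) 1 0 (by norm_num)), ?_⟩
  · fin_cases m
    · exact ⟨_, sim (x1 := 1) (y1 := 0) (x2 := 0) (y2 := 0) (x3 := 2 / 3) (y3 := 1 / 3) e1 e2
        (1 / 3) (by norm_num), by rw [range3, Set.pair_comm _ (pt A B C (2 / 3) (1 / 3))]; rfl⟩
    · exact ⟨_, sim (x1 := 0) (y1 := 1) (x2 := 0) (y2 := 0) (x3 := 1 / 3) (y3 := 2 / 3) e1 e2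
        (1 / 3) (by norm_num), by rw [range3, Set.pair_comm _ (pt A B C (1 / 3) (2 / 3))]; rfl⟩
    · exact ⟨_, sim (x1 := 2 / 3) (y1 := 1 / 3) (x2 := 1 / 3) (y2 := 2 / 3) (x3 := 1 / 3)
        (y3 := 1 / 3) e1 e2 (1 / 9) (by norm_num), by rw [range3]; rfl⟩
    · exact ⟨_, sim (x1 := 1 / 3) (y1 := 2 / 3) (x2 := 0) (y2 := 0) (x3 := 1 / 3)
        (y3 := 1 / 3) e1 e2 (1 / 9) (by norm_num), by rw [range3]; rfl⟩
    · exact ⟨_, sim (x1 := 0) (y1 := 0) (x2 := 2 / 3) (y2 := 1 / 3) (x3 := 1 / 3)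
        (y3 := 1 / 3) e1 e2 (1 / 9) (by norm_num), by rw [range3]; rfl⟩
  · rw [eB]
    refine Set.Subset.antisymm (Set.iUnion_subset fun m z hz => ?_) fun z hz => ?_
    · have : ∃ x y : ℝ, 0 ≤ x ∧ 0 ≤ y ∧ x + y ≤ 1 ∧ z = pt A B C x y := by
        fin_cases m <;> obtain ⟨a, b, c, ha, hb, hc, e, hz⟩ := mem_tr.1 hz <;>
          exact ⟨_, _, by linarith, by linarith, by linarith, hz⟩
      obtain ⟨x, y, hx, hy, e, rfl⟩ := this
      exact mem_tr.2 ⟨x, y, 1 - x - y, hx, hy, by linarith, by ring, by simp⟩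
    · obtain ⟨x, y, c, hx, hy, hc, e, rfl⟩ := mem_tr.1 hz
      have k : ∀ {x y x' y' : ℝ}, x = x' → y = y' → pt A B C x y = pt A B C x' y' := by
        rintro _ _ _ _ rfl rfl; rfl
      rw [Set.mem_iUnion]
      rcases le_total (2 * y) x with a1 | a1
      · exact ⟨0, mem_tr.2 ⟨x - 2 * y, 3 * y, c, by linarith, by linarith, hc, by linarith,
          k (by ring) (by ring)⟩⟩
      rcases le_total (2 * x) y with a2 | a2
      · exact ⟨1, mem_tr.2 ⟨y - 2 * x, 3 * x, c, by linarith, by linarith, hc, by linarith,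
          k (by ring) (by ring)⟩⟩
      by_cases a3 : c ≤ 2 * x - y ∧ c ≤ 2 * y - x
      · exact ⟨2, mem_tr.2 ⟨2 * x - y - c, 2 * y - x - c, 3 * c, by linarith, by linarith,
          by linarith, by linarith, k (by ring) (by ring)⟩⟩
      rw [not_and_or, not_le, not_le] at a3
      rcases le_total x y with a4 | a4
      · exact ⟨3, mem_tr.2 ⟨3 * y - 3 * x, c - (2 * x - y), 3 * (2 * x - y), by linarith,
          by rcases a3 with a3 | a3 <;> linarith, by linarith, by linarith,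
          k (by ring) (by ring)⟩⟩
      · exact ⟨4, mem_tr.2 ⟨c - (2 * y - x), 3 * x - 3 * y, 3 * (2 * y - x),
          by rcases a3 with a3 | a3 <;> linarith, by linarith, by linarith, by linarith,
          k (by ring) (by ring)⟩⟩

end Pool.Agent.P.MP_70ee84_co

end

section

/-! From the statement to positively oriented triangles. -/

open Complex Real EuclideanGeometry

namespace Pool.Agent.P.MP_70ee84_co

theorem ar_ne {t : Fin 3 → ℂ} (ht : AffineIndependent ℝ t) : ar t ≠ 0 := by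
  intro h
  have h1 : ∀ z, lam t 0 z = 0 := fun z =>
    affineIndependent_iff.1 ht Finset.univ (fun k => lam t k z)
      (by rw [Fin.sum_univ_three, sum_lam, h])
      (by simp only [Fin.sum_univ_three, real_smul]; rw [← bary, h]; simp) 0 (Finset.mem_univ _)
  have h2 := lam_add t 0 0 (I * (t (0 + 2) - t (0 + 1)))
  rw [h1, h1, zero_add] at h2
  exact cr_I_ne (sub_ne_zero.2 fun e => ne12 0 (ht.injective e).symm) h2.symm

theorem heron (v : Fin 3 → ℂ) : 4 * ar v ^ 2 = 4 * dist (v 1) (v 0) ^ 2 * dist (v 2) (v 0) ^ 2 -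
    (dist (v 1) (v 0) ^ 2 + dist (v 2) (v 0) ^ 2 - dist (v 1) (v 2) ^ 2) ^ 2 := by
  simp only [Complex.dist_eq, Complex.sq_norm, normSq_apply, ar, cr, sub_re, sub_im]
  ring

theorem sim_ar {v t : Fin 3 → ℂ} (h : Similar v t) (ht : ar t ≠ 0) : ar v ≠ 0 := by
  obtain ⟨r, hr, e⟩ := similar_iff_exists_pos_dist_eq.1 h
  intro h0
  have h1 := heron v
  rw [e, e, e, h0] at h1
  have h2 : r ^ 4 * (4 * ar t ^ 2) = 0 := by rw [heron t]; linear_combination -h1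
  have h3 : 0 < r ^ 4 * (4 * ar t ^ 2) := by positivity
  linarith

theorem sim_an {v t : Fin 3 → ℂ} (h : Similar v t) (j : Fin 3) : an v j = an t j := by
  have e : ∀ w : Fin 3 → ℂ, w ∘ ![j + 1, j, j + 2] = ![w (j + 1), w j, w (j + 2)] := fun w => by
    ext k; fin_cases k <;> rfl
  have := h.index_map ![j + 1, j, j + 2]
  rw [e, e] at this
  exact this.angle_eq

theorem orient {v : Fin 3 → ℂ} (h : ar v ≠ 0) :
    ∃ σ : Equiv.Perm (Fin 3), 0 < ar (v ∘ σ) ∧ ∀ j, an (v ∘ σ) j = an v (σ j) := by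
  rcases h.lt_or_gt with h | h
  · refine ⟨Equiv.swap 1 2, ?_, fun j => ?_⟩
    · have : ar (v ∘ Equiv.swap 1 2) = -ar v := by
        simp [ar, cr, Equiv.swap_apply_def]; ring
      linarith
    · have : ∀ j : Fin 3, Equiv.swap 1 2 (j + 1) = Equiv.swap 1 2 j + 2 ∧
          Equiv.swap 1 2 (j + 2) = Equiv.swap 1 2 j + 1 := by decide
      simp only [an, Function.comp, this, angle_comm]
  · exact ⟨1, h, fun _ => rfl⟩

theorem forward {t : Fin 3 → ℂ} (ht : AffineIndependent ℝ t)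
    (hnr : ∀ i j k, i ≠ j → j ≠ k → i ≠ k → ∠ (t i) (t j) (t k) ≠ π / 2) {S : Fin 5 → Set ℂ}
    (h1 : ∀ m, ∃ v : Fin 3 → ℂ, Similar v t ∧ S m = convexHull ℝ (Set.range v))
    (h2 : Pairwise fun m m' => Disjoint (interior (S m)) (interior (S m')))
    (h3 : ⋃ m, S m = convexHull ℝ (Set.range t)) :
    ∃ (σ : Equiv.Perm (Fin 3)) (A B C P Q W : ℂ), t ∘ σ = ![A, B, C] ∧
      ∠ C A B = π / 6 ∧ ∠ A B C = π / 6 ∧ ∠ B C A = 2 * π / 3 ∧
      P = (2 * A + B) / 3 ∧ Q = (A + 2 * B) / 3 ∧ W = (A + B + C) / 3 ∧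
      ∃ e : Equiv.Perm (Fin 5), S ∘ e = ![convexHull ℝ {A, P, C}, convexHull ℝ {B, Q, C},
        convexHull ℝ {P, Q, W}, convexHull ℝ {Q, C, W}, convexHull ℝ {C, P, W}] := by
  choose v hv hS using h1
  obtain ⟨σ, t0, ta⟩ := orient (ar_ne ht)
  choose τ s0 sa using fun m => orient (sim_ar (hv m) (ar_ne ht))
  have hS' : ∀ m, S m = convexHull ℝ (Set.range (v m ∘ τ m)) := fun m => by
    rw [(τ m).surjective.range_comp, hS]
  have hA : ∀ k, an t k = (an t ∘ Tuple.sort (an t)) ((Tuple.sort (an t)).symm k) := by simp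
  have D : Dis (an t ∘ Tuple.sort (an t)) (t ∘ σ) fun m => v m ∘ τ m :=
    ⟨part_of t0 s0 (by simpa only [← hS'] using h2)
      (by simpa only [← hS', σ.surjective.range_comp] using h3),
      Tuple.monotone_sort _ (by decide), Tuple.monotone_sort _ (by decide),
      fun j => hnr _ _ _ (ne1 _) (ne2 _).symm (ne12 _),
      ord_of ⟨σ.trans (Tuple.sort (an t)).symm, fun j => (ta j).trans (hA _)⟩,
      fun m => ord_of ⟨(τ m).trans (Tuple.sort (an t)).symm, fun j =>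
        ((sa m j).trans (sim_an (hv m) _)).trans (hA _)⟩⟩
  obtain ⟨j, P, Q, W, e, a0, a1, a2, hP, hQ, hW, he, r0, r1, r2, r3, r4⟩ := D.core
  rw [an, angle_comm] at a0 a1 a2
  rw [a11, a12] at a1
  rw [a21, a22] at a2
  refine ⟨(Equiv.addRight (j + 1)).trans σ, _, _, _, P, Q, W, ?_, a1, a2, a0, hP, hQ, hW,
    Equiv.ofBijective e (Finite.injective_iff_bijective.1 he), ?_⟩
  · ext k
    fin_cases j <;> fin_cases k <;> rfl
  · rw [← r0, ← r1, ← r2, ← r3, ← r4]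
    funext k
    fin_cases k <;> exact hS' _

theorem backward {t : Fin 3 → ℂ} (ht : AffineIndependent ℝ t) {S : Fin 5 → Set ℂ}
    (h : ∃ (σ : Equiv.Perm (Fin 3)) (A B C P Q W : ℂ), t ∘ σ = ![A, B, C] ∧
      ∠ C A B = π / 6 ∧ ∠ A B C = π / 6 ∧ ∠ B C A = 2 * π / 3 ∧
      P = (2 * A + B) / 3 ∧ Q = (A + 2 * B) / 3 ∧ W = (A + B + C) / 3 ∧
      ∃ e : Equiv.Perm (Fin 5), S ∘ e = ![convexHull ℝ {A, P, C}, convexHull ℝ {B, Q, C},
        convexHull ℝ {P, Q, W}, convexHull ℝ {Q, C, W}, convexHull ℝ {C, P, W}]) :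
    (∀ m, ∃ v : Fin 3 → ℂ, Similar v t ∧ S m = convexHull ℝ (Set.range v)) ∧
      (Pairwise fun m m' => Disjoint (interior (S m)) (interior (S m'))) ∧
      ⋃ m, S m = convexHull ℝ (Set.range t) := by
  obtain ⟨σ, A, B, C, P, Q, W, h0, h1, h2, h3, hP, hQ, hW, e, he⟩ := h
  have hD := ar_ne (ht.comp_embedding σ.toEmbedding)
  rw [← ar_eq _ 2, Equiv.coe_toEmbedding, h0] at hD
  obtain ⟨c1, c2, c3⟩ := conv (A := A) (B := B) (C := C) hD h1 h2 h3 hP hQ hW he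
  refine ⟨fun m => ?_, fun m m' hm => ?_, ?_⟩
  · obtain ⟨v, hv, hm⟩ := c1 (e.symm m)
    refine ⟨v ∘ σ.symm, (Similar.index_equiv σ _ _).1 ?_, ?_⟩
    · rwa [h0, Function.comp_assoc, σ.symm_comp_self, Function.comp_id]
    · rw [σ.symm.surjective.range_comp, ← hm]
      simp
  · simpa using c2 (e.symm.injective.ne hm)
  · rw [← σ.surjective.range_comp, h0, range3, ← c3]
    exact (e.surjective.iUnion_comp S).symm

end Pool.Agent.P.MP_70ee84_co

end
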